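import Mathlib

set_option autoImplicit false
set_option linter.unusedSectionVars false
set_option linter.unusedSimpArgs false
set_option linter.unnecessarySeqFocus false
set_option linter.unusedVariables false

open Finset Matrix

namespace Pool.Agent.Helper347.Sab



/-- local states -/
inductive St | X | Y | Z
deriving DecidableEq

variable {N : Type} [Fintype N] [DecidableEq N]

abbrev F2 := ZMod 2
abbrev Vec (N : Type) := N → ZMod 2

/-- local condition -/
def cnd (c : St) (a b : ZMod 2) : ZMod 2 :=
  match c with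
  | St.X => a
  | St.Y => b
  | St.Z => a + b

/-- linear form -/
def lf (A : Matrix N N (ZMod 2)) (c : St) (i : N) : (N → ZMod 2) →ₗ[ZMod 2] ZMod 2 where
  toFun x := cnd c (x i) ((A *ᵥ x) i)
  map_add' x y := by
    cases c <;> simp [cnd, mulVec_add] <;> ring
  map_smul' a x := by
    cases c <;> simp [cnd, mulVec_smul] <;> ring

/-- the space of a state -/
def KK (A : Matrix N N (ZMod 2)) (τ : N → St) : Submodule (ZMod 2) (N → ZMod 2) :=
  ⨅ i, LinearMap.ker (lf A (τ i) i)

theorem mem_KK {A : Matrix N N (ZMod 2)} {τ : N → St} {x : N → ZMod 2} :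
    x ∈ KK A τ ↔ ∀ i, cnd (τ i) (x i) ((A *ᵥ x) i) = 0 := by
  simp [KK, lf]

/-- the space with the condition at i dropped -/
def KD (A : Matrix N N (ZMod 2)) (τ : N → St) (i : N) : Submodule (ZMod 2) (N → ZMod 2) :=
  ⨅ j : {j // j ≠ i}, LinearMap.ker (lf A (τ j) j)

theorem mem_KD {A : Matrix N N (ZMod 2)} {τ : N → St} {i : N} {x : N → ZMod 2} :
    x ∈ KD A τ i ↔ ∀ j, j ≠ i → cnd (τ j) (x j) ((A *ᵥ x) j) = 0 := by
  simp [KD, lf]

theorem KK_update (A : Matrix N N (ZMod 2)) (τ : N → St) (i : N) (c : St) :
    KK A (Function.update τ i c) = KD A τ i ⊓ LinearMap.ker (lf A c i) := by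
  ext x
  rw [mem_KK, Submodule.mem_inf, mem_KD, LinearMap.mem_ker]
  constructor
  · intro h
    refine ⟨fun j hj => ?_, ?_⟩
    · have := h j
      rwa [Function.update_of_ne hj] at this
    · have := h i
      rwa [Function.update_self] at this
  · rintro ⟨h1, h2⟩ j
    by_cases hj : j = i
    · subst hj
      rw [Function.update_self]
      exact h2
    · rw [Function.update_of_ne hj]
      exact h1 j hj

/-- a functional cuts the dimension by one -/
theorem finrank_cut (K : Submodule (ZMod 2) (N → ZMod 2)) (φ : (N → ZMod 2) →ₗ[ZMod 2] ZMod 2)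
    (h : ∃ x ∈ K, φ x ≠ 0) :
    Module.finrank (ZMod 2) K = Module.finrank (ZMod 2) (K ⊓ LinearMap.ker φ : Submodule _ _) + 1 := by
  obtain ⟨x, hx, hne⟩ := h
  have h1 := LinearMap.finrank_range_add_finrank_ker (φ.domRestrict K)
  have h2 : LinearMap.range (φ.domRestrict K) = ⊤ := by
    rw [LinearMap.range_eq_top]
    intro c
    refine ⟨(c * (φ x)⁻¹) • ⟨x, hx⟩, ?_⟩
    simp [LinearMap.domRestrict_apply, hne]
  rw [h2, finrank_top, Module.finrank_self] at h1
  have h3 : Module.finrank (ZMod 2) (LinearMap.ker (φ.domRestrict K)) =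
      Module.finrank (ZMod 2) (K ⊓ LinearMap.ker φ : Submodule _ _) := by
    have e : LinearMap.ker (φ.domRestrict K) = Submodule.comap K.subtype (LinearMap.ker φ) := by
      ext y
      simp [LinearMap.domRestrict_apply]
    rw [e]
    have := (Submodule.comapSubtypeEquivOfLe (p := K ⊓ LinearMap.ker φ) (q := K) inf_le_left).finrank_eq
    rw [← this, Submodule.comap_inf, Submodule.comap_subtype_self, top_inf_eq]
  omega

/-- the bilinear form is symmetric -/
theorem sym_form (A : Matrix N N (ZMod 2)) (hA : A.IsSymm) (x y : N → ZMod 2) :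
    ∑ j, x j * (A *ᵥ y) j = ∑ j, y j * (A *ᵥ x) j := by
  have : x ⬝ᵥ (A *ᵥ y) = y ⬝ᵥ (A *ᵥ x) := by
    rw [dotProduct_mulVec, ← mulVec_transpose, hA.eq, dotProduct_comm]
  exact this

theorem z2_cases (a : ZMod 2) : a = 0 ∨ a = 1 := by
  revert a; decide

theorem isotropy (A : Matrix N N (ZMod 2)) (hA : A.IsSymm) (τ : N → St) (i : N)
    {x y : N → ZMod 2} (hx : x ∈ KD A τ i) (hy : y ∈ KD A τ i) :
    x i * (A *ᵥ y) i = y i * (A *ᵥ x) i := by
  rw [mem_KD] at hx hy
  have h := sym_form A hA x y
  rw [← Finset.add_sum_erase _ _ (mem_univ i), ← Finset.add_sum_erase _ _ (mem_univ i)] at h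
  have h2 : ∑ j ∈ univ.erase i, x j * (A *ᵥ y) j = ∑ j ∈ univ.erase i, y j * (A *ᵥ x) j := by
    refine sum_congr rfl fun j hj => ?_
    have hj' : j ≠ i := ne_of_mem_erase hj
    have a1 := hx j hj'
    have a2 := hy j hj'
    revert a1 a2
    generalize τ j = c
    generalize x j = a
    generalize y j = b
    generalize (A *ᵥ x) j = d
    generalize (A *ᵥ y) j = e
    revert a b d e
    cases c <;> simp only [cnd] <;> decide
  rw [h2] at h
  exact add_right_cancel h

/-- duality: if all members vanish at i then some member has nonzero image there -/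
theorem dual_exists (A : Matrix N N (ZMod 2)) (hA : A.IsSymm) (τ : N → St) (i : N)
    (h : ∀ x ∈ KD A τ i, x i = 0) : ∃ z ∈ KD A τ i, (A *ᵥ z) i ≠ 0 := by
  classical
  let Φ : (N → ZMod 2) →ₗ[ZMod 2] (N → ZMod 2) :=
    LinearMap.pi fun j => lf A (Function.update τ i St.X j) j
  have hΦ : ∀ x j, Φ x j = cnd (Function.update τ i St.X j) (x j) ((A *ᵥ x) j) := fun x j => rfl
  have hnot : (Pi.single i 1 : N → ZMod 2) ∉ LinearMap.range Φ := by
    rintro ⟨x, hx⟩
    have hxK : x ∈ KD A τ i := by
      rw [mem_KD]
      intro j hj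
      have := congrFun hx j
      rw [hΦ, Function.update_of_ne hj, Pi.single_eq_of_ne hj] at this
      exact this
    have := congrFun hx i
    rw [hΦ, Function.update_self, Pi.single_eq_same] at this
    simp only [cnd] at this
    rw [h x hxK] at this
    exact zero_ne_one this
  obtain ⟨f, hf1, hf2⟩ := Submodule.exists_dual_map_eq_bot_of_notMem hnot inferInstance
  have hf3 : ∀ x, f (Φ x) = 0 := by
    intro x
    have : f (Φ x) ∈ (LinearMap.range Φ).map f := ⟨Φ x, ⟨x, rfl⟩, rfl⟩
    rw [hf2] at this
    exact this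
  obtain ⟨y, hy⟩ : ∃ y : N → ZMod 2, ∀ v, f v = ∑ j, y j * v j := by
    refine ⟨fun j => f (Pi.single j 1), fun v => ?_⟩
    conv_lhs => rw [pi_eq_sum_univ' v]
    rw [map_sum]
    refine sum_congr rfl fun j _ => ?_
    rw [map_smul, smul_eq_mul, mul_comm]
  have hyi : y i = 1 := by
    have := hy (Pi.single i 1)
    rw [sum_eq_single i] at this
    · rw [Pi.single_eq_same, mul_one] at this
      rcases z2_cases (y i) with h0 | h0
      · rw [h0] at this; exact absurd this hf1
      · exact h0
    · intro j _ hj
      rw [Pi.single_eq_of_ne hj, mul_zero]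
    · simp
  -- the vector z
  let b : N → ZMod 2 := fun j => cnd (Function.update τ i St.X j) 0 1
  let a : N → ZMod 2 := fun j => cnd (Function.update τ i St.X j) 1 0
  have hcnd : ∀ j (p q : ZMod 2), cnd (Function.update τ i St.X j) p q = a j * p + b j * q := by
    intro j p q
    simp only [a, b]
    cases Function.update τ i St.X j <;> simp [cnd]
  have key : ∀ k, a k * y k + (A *ᵥ fun j => b j * y j) k = 0 := by
    intro k
    have h1 := hf3 (Pi.single k 1)
    rw [hy] at h1
    have h2 : ∀ j, y j * Φ (Pi.single k 1) j =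
        (if j = k then a k * y k else 0) + A k j * (b j * y j) := by
      intro j
      rw [hΦ, hcnd]
      have h3 : (A *ᵥ Pi.single k 1) j = A k j := by
        rw [mulVec_single_one]
        have := congrFun (congrFun hA.eq k) j
        rw [transpose_apply] at this
        exact this
      rw [h3]
      by_cases hj : j = k
      · subst hj
        rw [Pi.single_eq_same, if_pos rfl]
        ring
      · rw [Pi.single_eq_of_ne hj, if_neg hj]
        ring
    simp only [h2] at h1
    rw [sum_add_distrib, sum_ite_eq' univ k, if_pos (mem_univ k)] at h1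
    exact h1
  refine ⟨fun j => b j * y j, ?_, ?_⟩
  · rw [mem_KD]
    intro j hj
    have hk := key j
    have e1 : a j = cnd (τ j) 1 0 := by simp only [a]; rw [Function.update_of_ne hj]
    have e2 : b j = cnd (τ j) 0 1 := by simp only [b]; rw [Function.update_of_ne hj]
    rw [e1] at hk
    revert hk
    show cnd (τ j) 1 0 * y j + (A *ᵥ fun j => b j * y j) j = 0 →
      cnd (τ j) (b j * y j) ((A *ᵥ fun j => b j * y j) j) = 0
    generalize (A *ᵥ fun j => b j * y j) j = w
    rw [e2]
    generalize y j = v
    revert v w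
    cases τ j <;> simp only [cnd] <;> decide
  · have hk := key i
    have e1 : a i = 1 := by simp only [a]; rw [Function.update_self]; rfl
    rw [e1, hyi] at hk
    intro h0
    rw [h0] at hk
    simp at hk

/-- weight of a state -/
noncomputable def wt (A : Matrix N N (ZMod 2)) (τ : N → St) : ℤ :=
  (-2) ^ Module.finrank (ZMod 2) (KK A τ)

/-- the binor identity -/
theorem binor (A : Matrix N N (ZMod 2)) (hA : A.IsSymm) (τ : N → St) (i : N) :
    wt A (Function.update τ i St.X) + wt A (Function.update τ i St.Y) +
      wt A (Function.update τ i St.Z) = 0 := by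
  unfold wt
  rw [KK_update, KK_update, KK_update]
  by_cases h : ∃ x ∈ KD A τ i, x i ≠ 0
  · obtain ⟨x0, hx0, hne⟩ := h
    have hx1 : x0 i = 1 := (z2_cases _).resolve_left hne
    have hq : ∀ x ∈ KD A τ i, (A *ᵥ x) i = (A *ᵥ x0) i * x i := by
      intro x hx
      have := isotropy A hA τ i hx hx0
      rw [hx1, one_mul] at this
      rw [← this, mul_comm]
    have hc := finrank_cut (KD A τ i) (lf A St.X i) ⟨x0, hx0, by simpa [lf, cnd] using hne⟩
    rcases z2_cases ((A *ᵥ x0) i) with h0 | h0
    · have e1 : KD A τ i ⊓ LinearMap.ker (lf A St.Y i) = KD A τ i := by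
        refine inf_eq_left.2 fun x hx => ?_
        simp [lf, cnd, hq x hx, h0]
      have e2 : KD A τ i ⊓ LinearMap.ker (lf A St.Z i) = KD A τ i ⊓ LinearMap.ker (lf A St.X i) := by
        ext x
        simp only [Submodule.mem_inf, LinearMap.mem_ker, and_congr_right_iff]
        intro hx
        simp [lf, cnd, hq x hx, h0]
      rw [e1, e2, hc]
      ring
    · have e1 : KD A τ i ⊓ LinearMap.ker (lf A St.Z i) = KD A τ i := by
        refine inf_eq_left.2 fun x hx => ?_
        simp [lf, cnd, hq x hx, h0, CharTwo.add_self_eq_zero]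
      have e2 : KD A τ i ⊓ LinearMap.ker (lf A St.Y i) = KD A τ i ⊓ LinearMap.ker (lf A St.X i) := by
        ext x
        simp only [Submodule.mem_inf, LinearMap.mem_ker, and_congr_right_iff]
        intro hx
        simp [lf, cnd, hq x hx, h0]
      rw [e1, e2, hc]
      ring
  · push Not at h
    obtain ⟨z, hz, hzne⟩ := dual_exists A hA τ i h
    have hc := finrank_cut (KD A τ i) (lf A St.Y i) ⟨z, hz, by simpa [lf, cnd] using hzne⟩
    have e1 : KD A τ i ⊓ LinearMap.ker (lf A St.X i) = KD A τ i := by
      refine inf_eq_left.2 fun x hx => ?_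
      simp [lf, cnd, h x hx]
    have e2 : KD A τ i ⊓ LinearMap.ker (lf A St.Z i) = KD A τ i ⊓ LinearMap.ker (lf A St.Y i) := by
      ext x
      simp only [Submodule.mem_inf, LinearMap.mem_ker, and_congr_right_iff]
      intro hx
      simp [lf, cnd, h x hx]
    rw [e1, e2, hc]
    ring


/-- overriding -/
def ov (T : Finset N) (g τ : N → St) : N → St := fun i => if i ∈ T then g i else τ i

theorem ov_update {T : Finset N} {a : N} (ha : a ∉ T) (g τ : N → St) (c : St) :
    ov T g (Function.update τ a c) = Function.update (ov T g τ) a c := by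
  funext i
  unfold ov
  by_cases hi : i = a
  · subst hi
    rw [if_neg ha, Function.update_self, Function.update_self]
  · rw [Function.update_of_ne hi, Function.update_of_ne hi]

/-- expansion of the signed sum -/
theorem expansion (f : (N → St) → ℤ)
    (hf : ∀ τ i, f (Function.update τ i St.X) + f (Function.update τ i St.Y) +
      f (Function.update τ i St.Z) = 0) (T : Finset N) : ∀ τ : N → St,
    ∑ S ∈ T.powerset, (-1) ^ S.card * f (ov T (fun i => if i ∈ S then St.Z else St.Y) τ) =
    ∑ S ∈ T.powerset, 2 ^ S.card * f (ov T (fun i => if i ∈ S then St.Y else St.X) τ) := by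
  classical
  induction T using Finset.induction_on with
  | empty =>
    intro τ
    have h0 : ∀ g : N → St, ov ∅ g τ = τ := by intro g; funext i; simp [ov]
    rw [powerset_empty, sum_singleton, sum_singleton, h0, h0]
    simp
  | insert a T ha ih =>
    intro τ
    rw [sum_powerset_insert ha, sum_powerset_insert ha]
    have hcard : ∀ S ∈ T.powerset, (insert a S).card = S.card + 1 := by
      intro S hS
      exact card_insert_of_notMem fun h => ha (mem_powerset.1 hS h)
    have h1 : ∀ (c d : St), ∀ S ∈ T.powerset,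
        ov (insert a T) (fun i => if i ∈ S then c else d) τ =
        ov T (fun i => if i ∈ S then c else d) (Function.update τ a d) := by
      intro c d S hS
      have haS : a ∉ S := fun h => ha (mem_powerset.1 hS h)
      funext i
      unfold ov
      by_cases hi : i = a
      · subst hi
        simp [ha, haS]
      · simp [hi]
    have h2 : ∀ (c d : St), ∀ S ∈ T.powerset,
        ov (insert a T) (fun i => if i ∈ insert a S then c else d) τ =
        ov T (fun i => if i ∈ S then c else d) (Function.update τ a c) := by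
      intro c d S hS
      funext i
      unfold ov
      by_cases hi : i = a
      · subst hi
        simp [ha]
      · simp [hi]
    have e0 : ∑ S ∈ T.powerset, (-1) ^ S.card *
        f (ov (insert a T) (fun i => if i ∈ S then St.Z else St.Y) τ) =
        ∑ S ∈ T.powerset, 2 ^ S.card *
          f (ov T (fun i => if i ∈ S then St.Y else St.X) (Function.update τ a St.Y)) := by
      rw [← ih]
      exact sum_congr rfl fun S hS => by rw [h1 St.Z St.Y S hS]
    have e1 : ∑ S ∈ T.powerset, (-1) ^ (insert a S).card *
        f (ov (insert a T) (fun i => if i ∈ insert a S then St.Z else St.Y) τ) =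
        - ∑ S ∈ T.powerset, 2 ^ S.card *
          f (ov T (fun i => if i ∈ S then St.Y else St.X) (Function.update τ a St.Z)) := by
      rw [← ih, ← sum_neg_distrib]
      refine sum_congr rfl fun S hS => ?_
      rw [hcard S hS, h2 St.Z St.Y S hS, pow_succ]; ring
    have e2 : ∑ S ∈ T.powerset, 2 ^ S.card *
        f (ov (insert a T) (fun i => if i ∈ S then St.Y else St.X) τ) =
        ∑ S ∈ T.powerset, 2 ^ S.card *
          f (ov T (fun i => if i ∈ S then St.Y else St.X) (Function.update τ a St.X)) :=
      sum_congr rfl fun S hS => by rw [h1 St.Y St.X S hS]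
    have e3 : ∑ S ∈ T.powerset, 2 ^ (insert a S).card *
        f (ov (insert a T) (fun i => if i ∈ insert a S then St.Y else St.X) τ) =
        ∑ S ∈ T.powerset, 2 ^ (S.card + 1) *
          f (ov T (fun i => if i ∈ S then St.Y else St.X) (Function.update τ a St.Y)) :=
      sum_congr rfl fun S hS => by rw [hcard S hS, h2 St.Y St.X S hS]
    rw [e0, e1, e2, e3, ← sum_neg_distrib, ← sum_add_distrib, ← sum_add_distrib]
    refine sum_congr rfl fun S _ => ?_
    rw [ov_update ha, ov_update ha, ov_update ha]
    have := hf (ov T (fun i => if i ∈ S then St.Y else St.X) τ) a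
    rw [pow_succ]
    linear_combination (-(2:ℤ) ^ S.card) * this

/-- sign character -/
def sg (a : ZMod 2) : ℤ := if a = 0 then 1 else -1

theorem sg_add_one (a : ZMod 2) : sg (a + 1) = - sg a := by
  rcases z2_cases a with h | h <;> subst h <;> decide

/-- sign of a vector -/
def sgn {M : Type} [Fintype M] (v : M → ZMod 2) : ℤ := ∏ i, sg (v i)

theorem sgn_add_single {M : Type} [Fintype M] [DecidableEq M] (v : M → ZMod 2) (i : M) :
    sgn (v + Pi.single i 1) = - sgn v := by
  unfold sgn
  rw [← mul_prod_erase _ _ (mem_univ i), ← mul_prod_erase _ _ (mem_univ i)]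
  have : ∏ x ∈ univ.erase i, sg ((v + (Pi.single i 1 : M → ZMod 2)) x) =
      ∏ x ∈ univ.erase i, sg (v x) := by
    refine prod_congr rfl fun x hx => ?_
    rw [Pi.add_apply, Pi.single_eq_of_ne (ne_of_mem_erase hx), add_zero]
  rw [this, Pi.add_apply, Pi.single_eq_same, sg_add_one]
  ring

theorem sgn_sq {M : Type} [Fintype M] (v : M → ZMod 2) : sgn v = 1 ∨ sgn v = -1 := by
  unfold sgn
  induction (univ : Finset M) using Finset.cons_induction with
  | empty => simp
  | cons a s ha ih =>
    rw [prod_cons]
    have h1 : sg (v a) = 1 ∨ sg (v a) = -1 := by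
      rcases z2_cases (v a) with h | h <;> rw [h] <;> decide
    rcases h1 with h | h <;> rcases ih with h' | h' <;> rw [h, h'] <;> norm_num

/-- vectors over F2 as finsets -/
theorem sum_vec {M : Type} [Fintype M] [DecidableEq M] (F : (M → ZMod 2) → ℤ) :
    ∑ t : M → ZMod 2, F t = ∑ S : Finset M, F (fun i => if i ∈ S then 1 else 0) := by
  symm
  refine Fintype.sum_bijective (fun S : Finset M => fun i => if i ∈ S then (1 : ZMod 2) else 0)
    ⟨?_, ?_⟩ _ _ (fun _ => rfl)
  · intro S S' h
    ext i
    have := congrFun h i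
    by_cases h1 : i ∈ S <;> by_cases h2 : i ∈ S' <;> simp_all
  · intro t
    refine ⟨univ.filter fun i => t i = 1, ?_⟩
    funext i
    rcases z2_cases (t i) with h | h <;> simp [h]

theorem sgn_ind {M : Type} [Fintype M] [DecidableEq M] (S : Finset M) :
    sgn (fun i => if i ∈ S then (1 : ZMod 2) else 0) = (-1) ^ S.card := by
  unfold sgn
  have : ∀ i, sg (if i ∈ S then (1 : ZMod 2) else 0) = if i ∈ S then (-1 : ℤ) else 1 := by
    intro i
    by_cases h : i ∈ S <;> simp [h, sg]
  simp only [this]
  rw [prod_ite, prod_const, prod_const_one, mul_one]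
  congr 2
  ext; simp

/-- full states -/
def full (t : N → ZMod 2) : N → St := fun i => if t i = 0 then St.Y else St.Z

/-- Expansion of the signed sum over all full states. -/
theorem expansion_full (f : (N → St) → ℤ)
    (hf : ∀ τ i, f (Function.update τ i St.X) + f (Function.update τ i St.Y) +
      f (Function.update τ i St.Z) = 0) :
    ∑ t : N → ZMod 2, sgn t * f (full t) =
    ∑ S : Finset N, 2 ^ S.card * f (fun i => if i ∈ S then St.Y else St.X) := by
  have h := expansion f hf univ (fun _ => St.X)
  rw [powerset_univ] at h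
  have hov : ∀ g : N → St, ov univ g (fun _ => St.X) = g := by
    intro g; funext i; simp [ov]
  simp only [hov] at h
  rw [← h, sum_vec]
  refine sum_congr rfl fun S _ => ?_
  rw [sgn_ind]
  congr 2
  funext i
  unfold full
  by_cases hi : i ∈ S <;> simp [hi]


/-- clearing indices -/
def clr (W : Finset N) (A : Matrix N N (ZMod 2)) : Matrix N N (ZMod 2) :=
  Matrix.of fun i j => if i ∉ W ∧ j ∉ W then A i j else if i = j then 1 else 0

theorem clr_apply (W : Finset N) (A : Matrix N N (ZMod 2)) (i j : N) :
    clr W A i j = if i ∉ W ∧ j ∉ W then A i j else if i = j then 1 else 0 := rfl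

theorem clr_mulVec (W : Finset N) (A : Matrix N N (ZMod 2)) (x : N → ZMod 2) :
    clr W A *ᵥ x = 0 ↔ (∀ i ∈ W, x i = 0) ∧ ∀ i ∉ W, (A *ᵥ x) i = 0 := by
  constructor
  · intro h
    have h1 : ∀ i ∈ W, x i = 0 := by
      intro i hi
      have := congrFun h i
      rw [mulVec, dotProduct, sum_eq_single i] at this
      · rw [clr_apply] at this
        simpa [hi] using this
      · intro j _ hj
        rw [clr_apply]
        simp [hi, hj.symm]
      · simp
    refine ⟨h1, fun i hi => ?_⟩
    have := congrFun h i
    rw [Pi.zero_apply] at this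
    rw [← this, mulVec, mulVec, dotProduct, dotProduct]
    refine sum_congr rfl fun j _ => ?_
    by_cases hj : j ∈ W
    · rw [h1 j hj, mul_zero, mul_zero]
    · rw [clr_apply, if_pos ⟨hi, hj⟩]
  · rintro ⟨h1, h2⟩
    funext i
    by_cases hi : i ∈ W
    · rw [mulVec, dotProduct, sum_eq_single i]
      · rw [h1 i hi, mul_zero]; rfl
      · intro j _ hj
        rw [clr_apply]
        simp [hi, hj.symm]
      · simp
    · rw [Pi.zero_apply, ← h2 i hi, mulVec, mulVec, dotProduct, dotProduct]
      refine sum_congr rfl fun j _ => ?_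
      by_cases hj : j ∈ W
      · rw [h1 j hj, mul_zero, mul_zero]
      · rw [clr_apply, if_pos ⟨hi, hj⟩]

theorem det_eq_of_ker (M M' : Matrix N N (ZMod 2)) (h : ∀ x, M *ᵥ x = 0 ↔ M' *ᵥ x = 0) :
    M.det = M'.det := by
  have h1 : M.det = 0 ↔ M'.det = 0 := by
    rw [← Matrix.exists_mulVec_eq_zero_iff, ← Matrix.exists_mulVec_eq_zero_iff]
    simp only [h]
  rcases z2_cases M.det with h2 | h2 <;> rcases z2_cases M'.det with h3 | h3
  · rw [h2, h3]
  · rw [h1.1 h2] at h3; exact absurd h3 zero_ne_one
  · rw [h1.2 h3] at h2; exact absurd h2 zero_ne_one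
  · rw [h2, h3]

/-- elementary symmetric matrix -/
def EE (a b : N) : Matrix N N (ZMod 2) := Matrix.single a b 1 + Matrix.single b a 1

theorem EE_apply (a b i j : N) : EE a b i j =
    (if a = i ∧ b = j then 1 else 0) + (if b = i ∧ a = j then 1 else 0) := by
  unfold EE
  rw [Matrix.add_apply, Matrix.single_apply, Matrix.single_apply]

theorem EE_mulVec (a b : N) (x : N → ZMod 2) :
    EE a b *ᵥ x = Pi.single a (x b) + Pi.single b (x a) := by
  unfold EE
  rw [Matrix.add_mulVec]
  congr 1 <;>
  · funext i
    simp [Matrix.mulVec, dotProduct, Matrix.single_apply, Pi.single_apply, eq_comm]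
    try (split_ifs <;> simp_all)

theorem EE_symm (a b : N) : (EE a b).IsSymm := by
  unfold EE Matrix.IsSymm
  rw [Matrix.transpose_add, Matrix.transpose_single, Matrix.transpose_single, add_comm]

/-- two by two determinant identity over F2 -/
theorem det_pair (C : Matrix N N (ZMod 2)) (hC : C.IsSymm) {a b : N} (hab : a ≠ b) :
    C.det + (C + EE a b).det = (clr {a, b} C).det := by
  have e1 : C + EE a b = (C.updateRow a (C a + Pi.single b 1)).updateRow b (C b + Pi.single a 1) := by
    ext i j
    rw [Matrix.add_apply, EE_apply]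
    by_cases hb : i = b
    · subst hb
      rw [Matrix.updateRow_self, Pi.add_apply]
      simp [hab, Pi.single_apply, eq_comm]
    · rw [Matrix.updateRow_ne hb]
      by_cases ha : i = a
      · subst ha
        rw [Matrix.updateRow_self, Pi.add_apply]
        simp [hab.symm, Pi.single_apply, eq_comm]
      · rw [Matrix.updateRow_ne ha]
        simp [Ne.symm ha, Ne.symm hb]
  have e2 : (C + EE a b).det = C.det + (C.updateRow a (Pi.single b 1)).det +
      ((C.updateRow b (Pi.single a 1)).det +
        ((C.updateRow b (Pi.single a 1)).updateRow a (Pi.single b 1)).det) := by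
    rw [e1, Matrix.det_updateRow_add]
    have f1 : (C.updateRow a (C a + Pi.single b 1)).updateRow b (C b) =
        C.updateRow a (C a + Pi.single b 1) := by
      conv_lhs => rw [show C b = (C.updateRow a (C a + Pi.single b 1)) b by
        rw [Matrix.updateRow_ne hab.symm]]
      rw [Matrix.updateRow_eq_self]
    have f2 : (C.updateRow a (C a + Pi.single b 1)).updateRow b (Pi.single a 1) =
        (C.updateRow b (Pi.single a 1)).updateRow a (C a + Pi.single b 1) := by
      rw [Matrix.updateRow_comm _ hab]
    rw [f1, f2, Matrix.det_updateRow_add, Matrix.det_updateRow_add, Matrix.updateRow_eq_self]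
    congr 2
    rw [show C a = (C.updateRow b (Pi.single a 1)) a by rw [Matrix.updateRow_ne hab],
      Matrix.updateRow_eq_self]
  have e3 : (C.updateRow a (Pi.single b 1)).det = (C.updateRow b (Pi.single a 1)).det := by
    rw [← Matrix.adjugate_apply, ← Matrix.adjugate_apply]
    have := congrFun (congrFun (Matrix.adjugate_transpose C) a) b
    rw [hC.eq, Matrix.transpose_apply] at this
    exact this
  have e4 : ((C.updateRow b (Pi.single a 1)).updateRow a (Pi.single b 1)).det =
      (clr {a, b} C).det := by
    apply det_eq_of_ker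
    intro x
    rw [clr_mulVec]
    constructor
    · intro h
      have ha := congrFun h a
      have hb := congrFun h b
      rw [Matrix.mulVec, Matrix.updateRow_self, single_one_dotProduct, Pi.zero_apply] at ha
      rw [Matrix.mulVec, Matrix.updateRow_ne hab.symm, Matrix.updateRow_self,
        single_one_dotProduct, Pi.zero_apply] at hb
      refine ⟨?_, ?_⟩
      · intro i hi
        rw [mem_insert, mem_singleton] at hi
        rcases hi with hi | hi <;> subst hi <;> assumption
      · intro i hi
        rw [mem_insert, mem_singleton, not_or] at hi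
        have := congrFun h i
        rw [Matrix.mulVec, Matrix.updateRow_ne hi.1, Matrix.updateRow_ne hi.2] at this
        exact this
    · rintro ⟨h1, h2⟩
      funext i
      by_cases ha : i = a
      · subst ha
        rw [Matrix.mulVec, Matrix.updateRow_self, single_one_dotProduct]
        exact h1 b (by simp)
      · by_cases hb : i = b
        · subst hb
          rw [Matrix.mulVec, Matrix.updateRow_ne ha, Matrix.updateRow_self,
            single_one_dotProduct]
          exact h1 a (by simp)
        · rw [Matrix.mulVec, Matrix.updateRow_ne ha, Matrix.updateRow_ne hb]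
          exact h2 i (by simp [ha, hb])
  rw [e2, e3, e4]
  have h2 : ∀ z : ZMod 2, z + z = 0 := by decide
  linear_combination h2 C.det + h2 (C.updateRow b (Pi.single a 1)).det

theorem clr_symm {W : Finset N} {A : Matrix N N (ZMod 2)} (hA : A.IsSymm) : (clr W A).IsSymm := by
  ext i j
  rw [Matrix.transpose_apply, clr_apply, clr_apply, hA.apply]
  simp only [and_comm, eq_comm]

theorem clr_clr (W V : Finset N) (A : Matrix N N (ZMod 2)) :
    clr V (clr W A) = clr (W ∪ V) A := by
  ext i j
  rw [clr_apply, clr_apply, clr_apply]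
  by_cases h1 : i ∈ W <;> by_cases h2 : j ∈ W <;> by_cases h3 : i ∈ V <;> by_cases h4 : j ∈ V <;>
    simp [h1, h2, h3, h4]

theorem clr_add_EE {W : Finset N} (A : Matrix N N (ZMod 2)) {a b : N} (ha : a ∉ W) (hb : b ∉ W) :
    clr W (A + EE a b) = clr W A + EE a b := by
  ext i j
  rw [Matrix.add_apply, clr_apply, clr_apply, Matrix.add_apply]
  by_cases h : i ∉ W ∧ j ∉ W
  · rw [if_pos h, if_pos h]
  · rw [if_neg h, if_neg h]
    have : EE a b i j = 0 := by
      rw [EE_apply]
      have h1 : ¬ (a = i ∧ b = j) := by
        rintro ⟨e1, e2⟩; subst e1; subst e2; exact h ⟨ha, hb⟩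
      have h2 : ¬ (b = i ∧ a = j) := by
        rintro ⟨e1, e2⟩; subst e1; subst e2; exact h ⟨hb, ha⟩
      rw [if_neg h1, if_neg h2, add_zero]
    rw [this, add_zero]

variable {R : Type} [Fintype R] [DecidableEq R]

/-- the set of indices of the pairs in W -/
def prs (α β : R → N) (W : Finset R) : Finset N := W.image α ∪ W.image β

theorem peel (α β : R → N) (hinj : Function.Injective (Sum.elim α β)) (W : Finset R) :
    ∀ C : Matrix N N (ZMod 2), C.IsSymm →
    ∑ S ∈ W.powerset, (C + ∑ u ∈ S, EE (α u) (β u)).det = (clr (prs α β W) C).det := by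
  induction W using Finset.induction_on with
  | empty =>
    intro C _
    rw [powerset_empty, sum_singleton, sum_empty, add_zero]
    have : clr (prs α β (∅ : Finset R)) C = C := by
      ext i j
      rw [clr_apply]
      simp [prs]
    rw [this]
  | insert u W hu ih =>
    intro C hC
    rw [sum_powerset_insert hu]
    have h1 : ∑ S ∈ W.powerset, (C + ∑ v ∈ insert u S, EE (α v) (β v)).det =
        ∑ S ∈ W.powerset, ((C + EE (α u) (β u)) + ∑ v ∈ S, EE (α v) (β v)).det := by
      refine sum_congr rfl fun S hS => ?_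
      rw [sum_insert fun h => hu (mem_powerset.1 hS h), add_assoc]
    rw [h1, ih C hC, ih _ (hC.add (EE_symm _ _))]
    have hα : α u ∉ prs α β W := by
      unfold prs
      rw [mem_union, mem_image, mem_image]
      rintro (⟨v, hv, e⟩ | ⟨v, hv, e⟩)
      · have := hinj (a₁ := Sum.inl v) (a₂ := Sum.inl u) e
        rw [Sum.inl.injEq] at this
        subst this
        exact hu hv
      · have := hinj (a₁ := Sum.inr v) (a₂ := Sum.inl u) e
        exact absurd this (by simp)
    have hβ : β u ∉ prs α β W := by
      unfold prs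
      rw [mem_union, mem_image, mem_image]
      rintro (⟨v, hv, e⟩ | ⟨v, hv, e⟩)
      · have := hinj (a₁ := Sum.inl v) (a₂ := Sum.inr u) e
        exact absurd this (by simp)
      · have := hinj (a₁ := Sum.inr v) (a₂ := Sum.inr u) e
        rw [Sum.inr.injEq] at this
        subst this
        exact hu hv
    have hne : α u ≠ β u := by
      intro e
      have := hinj (a₁ := Sum.inl u) (a₂ := Sum.inr u) e
      exact absurd this (by simp)
    rw [clr_add_EE _ hα hβ, det_pair _ (clr_symm hC) hne, clr_clr]
    congr 2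
    unfold prs
    ext x
    simp only [mem_union, mem_image, mem_insert, mem_singleton]
    constructor
    · rintro ((⟨v, hv, e⟩ | ⟨v, hv, e⟩) | (e | e))
      · exact Or.inl ⟨v, Or.inr hv, e⟩
      · exact Or.inr ⟨v, Or.inr hv, e⟩
      · exact Or.inl ⟨u, Or.inl rfl, e.symm⟩
      · exact Or.inr ⟨u, Or.inl rfl, e.symm⟩
    · rintro (⟨v, hv | hv, e⟩ | ⟨v, hv | hv, e⟩)
      · subst hv; exact Or.inr (Or.inl e.symm)
      · exact Or.inl (Or.inl ⟨v, hv, e⟩)
      · subst hv; exact Or.inr (Or.inr e.symm)
      · exact Or.inl (Or.inr ⟨v, hv, e⟩)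

/-- parity of the weight -/
theorem wt_parity (A : Matrix N N (ZMod 2)) (S : Finset N) :
    ((wt A (fun i => if i ∈ S then St.Y else St.X) : ℤ) : ZMod 2) = (clr Sᶜ A).det := by
  have hk : ∀ x, x ∈ KK A (fun i => if i ∈ S then St.Y else St.X) ↔ clr Sᶜ A *ᵥ x = 0 := by
    intro x
    rw [mem_KK, clr_mulVec]
    constructor
    · intro h
      refine ⟨fun i hi => ?_, fun i hi => ?_⟩
      · have := h i
        rw [if_neg (mem_compl.1 hi)] at this
        exact this
      · have := h i
        rw [mem_compl, not_not] at hi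
        rw [if_pos hi] at this
        exact this
    · rintro ⟨h1, h2⟩ i
      by_cases hi : i ∈ S
      · rw [if_pos hi]
        exact h2 i (by simpa using hi)
      · rw [if_neg hi]
        exact h1 i (by simpa using hi)
  by_cases hdet : (clr Sᶜ A).det = 0
  · obtain ⟨v, hv, hv2⟩ := Matrix.exists_mulVec_eq_zero_iff.2 hdet
    have hne : Module.finrank (ZMod 2) (KK A (fun i => if i ∈ S then St.Y else St.X)) ≠ 0 := by
      intro h0
      rw [Submodule.finrank_eq_zero] at h0
      have := (hk v).2 hv2
      rw [h0, Submodule.mem_bot] at this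
      exact hv this
    unfold wt
    rw [hdet]
    obtain ⟨k, hk'⟩ := Nat.exists_eq_succ_of_ne_zero hne
    rw [hk', pow_succ]
    push_cast
    have : (2 : ZMod 2) = 0 := by decide
    rw [this]
    ring
  · have h1 : (clr Sᶜ A).det = 1 := (z2_cases _).resolve_left hdet
    have h0 : KK A (fun i => if i ∈ S then St.Y else St.X) = ⊥ := by
      rw [Submodule.eq_bot_iff]
      intro x hx
      by_contra hne
      exact hdet (Matrix.exists_mulVec_eq_zero_iff.1 ⟨x, hne, (hk x).1 hx⟩)
    unfold wt
    rw [h0, finrank_bot, h1]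
    simp


/-- the matrix with modified pair entries -/
def As (A : Matrix N N (ZMod 2)) (α β : R → N) (s : R → ZMod 2) : Matrix N N (ZMod 2) :=
  A + ∑ u, s u • EE (α u) (β u)

theorem As_symm {A : Matrix N N (ZMod 2)} (hA : A.IsSymm) (α β : R → N) (s : R → ZMod 2) :
    (As A α β s).IsSymm := by
  unfold As
  refine hA.add ?_
  unfold Matrix.IsSymm
  rw [Matrix.transpose_sum]
  refine sum_congr rfl fun u _ => ?_
  rw [Matrix.transpose_smul, (EE_symm _ _).eq]

theorem As_ind (A : Matrix N N (ZMod 2)) (α β : R → N) (S : Finset R) :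
    As A α β (fun u => if u ∈ S then 1 else 0) = A + ∑ u ∈ S, EE (α u) (β u) := by
  unfold As
  congr 1
  simp only [ite_smul, one_smul, zero_smul]
  rw [sum_ite_mem, univ_inter]

theorem As_mulVec (A : Matrix N N (ZMod 2)) (α β : R → N) (s : R → ZMod 2) (x : N → ZMod 2) :
    As A α β s *ᵥ x = A *ᵥ x + ∑ u, s u • (Pi.single (α u) (x (β u)) + Pi.single (β u) (x (α u))) := by
  unfold As
  rw [Matrix.add_mulVec, Matrix.sum_mulVec]
  congr 1
  refine sum_congr rfl fun u _ => ?_
  rw [Matrix.smul_mulVec, EE_mulVec]

theorem clr_add_sum {W : Finset N} (A : Matrix N N (ZMod 2)) (α β : R → N)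
    (hα : ∀ u, α u ∉ W) (hβ : ∀ u, β u ∉ W) (S : Finset R) :
    clr W (A + ∑ u ∈ S, EE (α u) (β u)) = clr W A + ∑ u ∈ S, EE (α u) (β u) := by
  induction S using Finset.induction_on with
  | empty => simp
  | insert u S hu ih =>
    rw [sum_insert hu, add_comm (EE (α u) (β u)), ← add_assoc, clr_add_EE _ (hα u) (hβ u), ih,
      add_assoc]

/-- the coefficient of the smallest term is odd -/
theorem odd_coeff (A : Matrix N N (ZMod 2)) (hA : A.IsSymm) (α β : R → N)
    (hinj : Function.Injective (Sum.elim α β)) :
    ((∑ s : R → ZMod 2, sgn s * wt (As A α β s)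
      (fun i => if i ∈ prs α β univ then St.Y else St.X) : ℤ) : ZMod 2) = 1 := by
  push_cast
  have h1 : ∀ s : R → ZMod 2, ((sgn s : ℤ) : ZMod 2) = 1 := by
    intro s
    rcases sgn_sq s with h | h <;> rw [h] <;> decide
  simp only [h1, one_mul, wt_parity]
  have h2 : ∀ F : (R → ZMod 2) → ZMod 2, ∑ t : R → ZMod 2, F t =
      ∑ S : Finset R, F (fun i => if i ∈ S then 1 else 0) := by
    intro F
    symm
    refine Fintype.sum_bijective (fun S : Finset R => fun i => if i ∈ S then (1 : ZMod 2) else 0)
      ⟨?_, ?_⟩ _ _ (fun _ => rfl)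
    · intro S S' h
      ext i
      have := congrFun h i
      by_cases h1 : i ∈ S <;> by_cases h2 : i ∈ S' <;> simp_all
    · intro t
      refine ⟨univ.filter fun i => t i = 1, ?_⟩
      funext i
      rcases z2_cases (t i) with h | h <;> simp [h]
  rw [h2]
  simp only [As_ind]
  have hα : ∀ u, α u ∉ (prs α β univ)ᶜ := by intro u; simp [prs]
  have hβ : ∀ u, β u ∉ (prs α β univ)ᶜ := by intro u; simp [prs]
  simp only [clr_add_sum A α β hα hβ]
  have h3 := peel α β hinj univ (clr (prs α β univ)ᶜ A) (clr_symm hA)
  rw [powerset_univ] at h3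
  rw [h3, clr_clr]
  have : clr ((prs α β univ)ᶜ ∪ prs α β univ) A = 1 := by
    ext i j
    rw [clr_apply, Matrix.one_apply]
    rw [if_neg]
    rintro ⟨h, _⟩
    apply h
    rw [mem_union, mem_compl]
    tauto
  rw [this, Matrix.det_one]

theorem wt_indep (A : Matrix N N (ZMod 2)) (α β : R → N) (S : Finset N) (u : R)
    (h : α u ∉ S ∨ β u ∉ S) (s : R → ZMod 2) :
    wt (As A α β (s + Pi.single u 1)) (fun i => if i ∈ S then St.Y else St.X) =
      wt (As A α β s) (fun i => if i ∈ S then St.Y else St.X) := by
  have e : As A α β (s + Pi.single u 1) = As A α β s + EE (α u) (β u) := by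
    unfold As
    rw [add_assoc]
    congr 1
    simp only [Pi.add_apply, add_smul]
    rw [sum_add_distrib]
    congr 1
    rw [sum_eq_single u]
    · rw [Pi.single_eq_same, one_smul]
    · intro v _ hv
      rw [Pi.single_eq_of_ne hv, zero_smul]
    · simp
  rw [e]
  generalize As A α β s = B
  -- conditions agree for vectors vanishing off S
  have key : ∀ x : N → ZMod 2, (∀ i ∉ S, x i = 0) → ∀ i ∈ S,
      ((B + EE (α u) (β u)) *ᵥ x) i = (B *ᵥ x) i := by
    intro x hx i hi
    rw [Matrix.add_mulVec, EE_mulVec, Pi.add_apply, Pi.add_apply]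
    rcases h with h | h
    · rw [hx _ h, Pi.single_zero, Pi.zero_apply, add_zero, Pi.single_eq_of_ne, add_zero]
      rintro rfl; exact h hi
    · rw [hx _ h, Pi.single_zero, Pi.zero_apply, zero_add, Pi.single_eq_of_ne, add_zero]
      rintro rfl; exact h hi
  have hK : ∀ C : Matrix N N (ZMod 2), ∀ x, x ∈ KK C (fun i => if i ∈ S then St.Y else St.X) ↔
      (∀ i ∉ S, x i = 0) ∧ ∀ i ∈ S, (C *ᵥ x) i = 0 := by
    intro C x
    rw [mem_KK]
    constructor
    · intro h
      refine ⟨fun i hi => ?_, fun i hi => ?_⟩
      · have := h i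
        rw [if_neg hi] at this
        exact this
      · have := h i
        rw [if_pos hi] at this
        exact this
    · rintro ⟨h1, h2⟩ i
      by_cases hi : i ∈ S
      · rw [if_pos hi]
        exact h2 i hi
      · rw [if_neg hi]
        exact h1 i hi
  have : KK (B + EE (α u) (β u)) (fun i => if i ∈ S then St.Y else St.X) =
      KK B (fun i => if i ∈ S then St.Y else St.X) := by
    ext x
    rw [hK, hK]
    constructor
    · rintro ⟨h1, h2⟩
      exact ⟨h1, fun i hi => by rw [← key x h1 i hi]; exact h2 i hi⟩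
    · rintro ⟨h1, h2⟩
      exact ⟨h1, fun i hi => by rw [key x h1 i hi]; exact h2 i hi⟩
  unfold wt
  rw [this]

/-- the value at -2 is nonzero -/
theorem value_ne_zero (A : Matrix N N (ZMod 2)) (hA : A.IsSymm) (α β : R → N)
    (hinj : Function.Injective (Sum.elim α β)) :
    ∑ s : R → ZMod 2, sgn s * ∑ t : N → ZMod 2, sgn t * wt (As A α β s) (full t) ≠ 0 := by
  intro hzero
  have h1 : ∀ s : R → ZMod 2, ∑ t : N → ZMod 2, sgn t * wt (As A α β s) (full t) =
      ∑ S : Finset N, 2 ^ S.card * wt (As A α β s) (fun i => if i ∈ S then St.Y else St.X) :=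
    fun s => expansion_full _ fun τ i => binor _ (As_symm hA α β s) τ i
  simp only [h1, mul_sum] at hzero
  rw [sum_comm] at hzero
  have h2 : ∀ S : Finset N, ∑ s : R → ZMod 2, sgn s * (2 ^ S.card *
      wt (As A α β s) (fun i => if i ∈ S then St.Y else St.X)) =
      2 ^ S.card * ∑ s : R → ZMod 2, sgn s *
        wt (As A α β s) (fun i => if i ∈ S then St.Y else St.X) := by
    intro S
    rw [mul_sum]
    refine sum_congr rfl fun s _ => ?_
    ring
  simp only [h2] at hzero
  obtain ⟨U, hU⟩ : ∃ U, U = prs α β univ := ⟨_, rfl⟩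
  rw [← Finset.add_sum_erase _ _ (mem_univ U)] at hzero
  have h3 : ∀ S ∈ (univ : Finset (Finset N)).erase U, (2:ℤ) ^ (U.card + 1) ∣ 2 ^ S.card *
      ∑ s : R → ZMod 2, sgn s * wt (As A α β s) (fun i => if i ∈ S then St.Y else St.X) := by
    intro S hS
    by_cases hsub : U ⊆ S
    · have hlt : U.card < S.card := card_lt_card
        (lt_of_le_of_ne hsub fun e => (ne_of_mem_erase hS) e.symm)
      exact Dvd.dvd.mul_right (pow_dvd_pow 2 hlt) _
    · have : ∃ u, α u ∉ S ∨ β u ∉ S := by
        by_contra hcon
        push Not at hcon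
        apply hsub
        rw [hU]
        intro x hx
        unfold prs at hx
        rw [mem_union, mem_image, mem_image] at hx
        rcases hx with ⟨u, _, e⟩ | ⟨u, _, e⟩
        · rw [← e]; exact (hcon u).1
        · rw [← e]; exact (hcon u).2
      obtain ⟨u, hu⟩ := this
      have hz : ∑ s : R → ZMod 2, sgn s *
          wt (As A α β s) (fun i => if i ∈ S then St.Y else St.X) = 0 := by
        have e := Equiv.sum_comp (Equiv.addRight (Pi.single u (1 : ZMod 2) : R → ZMod 2))
          (fun s => sgn s * wt (As A α β s) (fun i => if i ∈ S then St.Y else St.X))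
        simp only [Equiv.coe_addRight, sgn_add_single, wt_indep A α β S u hu, neg_mul,
          sum_neg_distrib] at e
        linarith
      rw [hz, mul_zero]
      exact dvd_zero _
  obtain ⟨m, hm⟩ := Finset.dvd_sum h3
  rw [hm] at hzero
  have hodd := odd_coeff A hA α β hinj
  rw [← hU] at hodd
  generalize (∑ s : R → ZMod 2, sgn s * wt (As A α β s)
    (fun i => if i ∈ U then St.Y else St.X)) = q at hzero hodd
  have h4 : (2:ℤ) ^ U.card * (q + 2 * m) = 0 := by
    rw [← hzero, pow_succ]; ring
  have h5 : q + 2 * m = 0 := by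
    rcases mul_eq_zero.1 h4 with h | h
    · exact absurd h (by positivity)
    · exact h
  have h6 : q = -(2 * m) := by linarith
  rw [h6] at hodd
  push_cast at hodd
  have : (2 : ZMod 2) = 0 := by decide
  rw [this] at hodd
  simp at hodd

/-- if there is no good state then all power sums vanish -/
theorem power_sums (A : Matrix N N (ZMod 2)) (α β : R → N)
    (hinj : Function.Injective (Sum.elim α β))
    (hno : ∀ (s : R → ZMod 2) (t : N → ZMod 2),
      (∃ i, ∀ x ∈ KK (As A α β s) (full t), x i = 0) ∨
      (∃ u, ∀ x ∈ KK (As A α β s) (full t), x (α u) + x (β u) = 0)) (d : ℕ) :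
    ∑ p : (R → ZMod 2) × (N → ZMod 2), sgn p.1 * sgn p.2 *
      ((2:ℤ) ^ d) ^ Module.finrank (ZMod 2) (KK (As A α β p.1) (full p.2)) = 0 := by
  classical
  have hcard : ∀ K : Submodule (ZMod 2) (N → ZMod 2),
      ((2:ℤ) ^ d) ^ Module.finrank (ZMod 2) K =
      ∑ l : Fin d → N → ZMod 2, if ∀ j, l j ∈ K then (1:ℤ) else 0 := by
    intro K
    have h1 : Fintype.card K = 2 ^ Module.finrank (ZMod 2) K := by
      have := Module.card_eq_pow_finrank (K := ZMod 2) (V := K)
      rw [ZMod.card] at this
      rw [← this]
    have h2 : Fintype.card (Fin d → K) =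
        (univ.filter fun l : Fin d → N → ZMod 2 => ∀ j, l j ∈ K).card := by
      rw [← Fintype.card_subtype]
      refine Fintype.card_congr ⟨fun f => ⟨fun j => (f j : N → ZMod 2), fun j => (f j).2⟩,
        fun f j => ⟨f.1 j, f.2 j⟩, fun f => rfl, fun f => rfl⟩
    rw [Fintype.card_fun, Fintype.card_fin, h1] at h2
    rw [sum_boole, ← h2]
    push_cast
    rw [← pow_mul, ← pow_mul, mul_comm]
  simp only [hcard, mul_sum]
  rw [sum_comm]
  refine sum_eq_zero fun l _ => ?_
  by_cases hex : ∃ p : (R → ZMod 2) × (N → ZMod 2), ∀ j, l j ∈ KK (As A α β p.1) (full p.2)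
  · obtain ⟨⟨s0, t0⟩, h0⟩ := hex
    have hmem : ∀ (s : R → ZMod 2) (t : N → ZMod 2) (x : N → ZMod 2),
        x ∈ KK (As A α β s) (full t) ↔ ∀ i, (As A α β s *ᵥ x) i = t i * x i := by
      intro s t x
      rw [mem_KK]
      refine forall_congr' fun i => ?_
      unfold full
      rcases z2_cases (t i) with h | h
      · rw [if_pos h, h, zero_mul]; rfl
      · rw [if_neg (by rw [h]; exact one_ne_zero), h, one_mul]
        show x i + (As A α β s *ᵥ x) i = 0 ↔ _
        generalize x i = a
        generalize (As A α β s *ᵥ x) i = b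
        revert a b; decide
    rcases hno s0 t0 with ⟨i, hi⟩ | ⟨u, hu⟩
    · have hl : ∀ j, l j i = 0 := fun j => hi _ (h0 j)
      have hinv : ∀ (s : R → ZMod 2) (t : N → ZMod 2),
          (∀ j, l j ∈ KK (As A α β s) (full (t + Pi.single i 1))) ↔
          (∀ j, l j ∈ KK (As A α β s) (full t)) := by
        intro s t
        refine forall_congr' fun j => ?_
        rw [hmem, hmem]
        refine forall_congr' fun k => ?_
        by_cases hk : k = i
        · subst hk
          rw [hl j, mul_zero, mul_zero]
        · rw [Pi.add_apply, Pi.single_eq_of_ne hk, add_zero]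
      have e := Equiv.sum_comp (Equiv.addRight
        ((0, Pi.single i (1 : ZMod 2)) : (R → ZMod 2) × (N → ZMod 2)))
        (fun p : (R → ZMod 2) × (N → ZMod 2) => sgn p.1 * sgn p.2 *
          if ∀ j, l j ∈ KK (As A α β p.1) (full p.2) then (1:ℤ) else 0)
      simp only [Equiv.coe_addRight, Prod.fst_add, Prod.snd_add, add_zero, sgn_add_single,
        hinv, mul_neg, neg_mul, sum_neg_distrib] at e
      linarith
    · have hl : ∀ j, l j (α u) = l j (β u) := fun j => by
        have := hu _ (h0 j)
        revert this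
        generalize l j (α u) = a
        generalize l j (β u) = b
        revert a b; decide
      have hne : α u ≠ β u := by
        intro e
        have := hinj (a₁ := Sum.inl u) (a₂ := Sum.inr u) e
        exact absurd this (by simp)
      have hinv : ∀ (s : R → ZMod 2) (t : N → ZMod 2),
          (∀ j, l j ∈ KK (As A α β (s + Pi.single u 1))
            (full (t + Pi.single (α u) 1 + Pi.single (β u) 1))) ↔
          (∀ j, l j ∈ KK (As A α β s) (full t)) := by
        intro s t
        refine forall_congr' fun j => ?_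
        rw [hmem, hmem]
        refine forall_congr' fun k => ?_
        have h5 : (As A α β (s + Pi.single u 1) *ᵥ l j) k = (As A α β s *ᵥ l j) k +
            ((Pi.single (α u) (l j (β u)) : N → ZMod 2) k +
              (Pi.single (β u) (l j (α u)) : N → ZMod 2) k) := by
          rw [As_mulVec, As_mulVec, Pi.add_apply, Pi.add_apply, add_assoc]
          congr 1
          have h6 : ∀ v : R, (s + (Pi.single u 1 : R → ZMod 2)) v = s v +
              (Pi.single u 1 : R → ZMod 2) v := fun v => rfl
          simp only [h6, add_smul, sum_add_distrib]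
          rw [Pi.add_apply]
          congr 1
          rw [sum_eq_single u]
          · rw [Pi.single_eq_same, one_smul]; rfl
          · intro v _ hv
            rw [Pi.single_eq_of_ne hv, zero_smul]
          · simp
        rw [h5, Pi.add_apply, Pi.add_apply]
        by_cases ha : k = α u
        · rw [ha, Pi.single_eq_same, Pi.single_eq_same, Pi.single_eq_of_ne hne,
            Pi.single_eq_of_ne hne, hl j]
          generalize (As A α β s *ᵥ l j) (α u) = b
          generalize l j (β u) = a
          generalize t (α u) = c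
          revert a b c; decide
        · by_cases hb : k = β u
          · rw [hb, Pi.single_eq_same, Pi.single_eq_same, Pi.single_eq_of_ne hne.symm,
              Pi.single_eq_of_ne hne.symm, hl j]
            generalize (As A α β s *ᵥ l j) (β u) = b
            generalize l j (β u) = a
            generalize t (β u) = c
            revert a b c; decide
          · rw [Pi.single_eq_of_ne ha, Pi.single_eq_of_ne hb, Pi.single_eq_of_ne ha,
              Pi.single_eq_of_ne hb]
            simp
      have e := Equiv.sum_comp (Equiv.addRight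
        ((Pi.single u (1 : ZMod 2), Pi.single (α u) (1 : ZMod 2) + Pi.single (β u) (1 : ZMod 2)) :
          (R → ZMod 2) × (N → ZMod 2)))
        (fun p : (R → ZMod 2) × (N → ZMod 2) => sgn p.1 * sgn p.2 *
          if ∀ j, l j ∈ KK (As A α β p.1) (full p.2) then (1:ℤ) else 0)
      simp only [Equiv.coe_addRight, Prod.fst_add, Prod.snd_add, ← add_assoc, sgn_add_single,
        hinv, neg_mul, neg_neg, sum_neg_distrib] at e
      linarith
  · push Not at hex
    refine sum_eq_zero fun p _ => ?_
    obtain ⟨j, hj⟩ := hex p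
    rw [if_neg fun h => hj (h j), mul_zero]

/-- MAIN ALGEBRAIC THEOREM -/
theorem algebra (A : Matrix N N (ZMod 2)) (hA : A.IsSymm) (α β : R → N)
    (hinj : Function.Injective (Sum.elim α β)) :
    ∃ (s : R → ZMod 2) (t : N → ZMod 2),
      (∀ i, ∃ x ∈ KK (As A α β s) (full t), x i ≠ 0) ∧
      (∀ u, ∃ x ∈ KK (As A α β s) (full t), x (α u) + x (β u) ≠ 0) := by
  by_contra hcon
  push Not at hcon
  have hno : ∀ (s : R → ZMod 2) (t : N → ZMod 2),
      (∃ i, ∀ x ∈ KK (As A α β s) (full t), x i = 0) ∨
      (∃ u, ∀ x ∈ KK (As A α β s) (full t), x (α u) + x (β u) = 0) := by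
    intro s t
    by_cases h : ∀ i, ∃ x ∈ KK (As A α β s) (full t), x i ≠ 0
    · exact Or.inr (hcon s t h)
    · push Not at h
      exact Or.inl h
  have hps := power_sums A α β hinj hno
  let P : Polynomial ℤ := ∑ p : (R → ZMod 2) × (N → ZMod 2),
    Polynomial.C (sgn p.1 * sgn p.2) *
      Polynomial.X ^ Module.finrank (ZMod 2) (KK (As A α β p.1) (full p.2))
  have hP : P = 0 := by
    apply Polynomial.eq_zero_of_infinite_isRoot
    have hinj2 : Function.Injective (fun d : ℕ => (2:ℤ) ^ d) := by
      intro a b h
      have h' : (2:ℤ) ^ a = 2 ^ b := h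
      have h'' : (2:ℕ) ^ a = 2 ^ b := by exact_mod_cast h'
      exact Nat.pow_right_injective le_rfl h''
    refine Set.infinite_of_injective_forall_mem (f := fun d : ℕ => (2:ℤ) ^ d) hinj2 ?_
    intro d
    show Polynomial.eval _ P = 0
    rw [Polynomial.eval_finsetSum]
    simp only [Polynomial.eval_mul, Polynomial.eval_C, Polynomial.eval_pow, Polynomial.eval_X]
    exact hps d
  have h2 : Polynomial.eval (-2) P = 0 := by rw [hP]; simp
  rw [Polynomial.eval_finsetSum] at h2
  simp only [Polynomial.eval_mul, Polynomial.eval_C, Polynomial.eval_pow, Polynomial.eval_X] at h2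
  apply value_ne_zero A hA α β hinj
  rw [Fintype.sum_prod_type] at h2
  rw [← h2]
  refine sum_congr rfl fun s _ => ?_
  rw [mul_sum]
  refine sum_congr rfl fun t _ => ?_
  unfold wt
  ring


end Pool.Agent.Helper347.Sab
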