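import Pool.Agent.Helper347.SabAlg

set_option autoImplicit false
set_option linter.unusedSectionVars false
set_option linter.unusedSimpArgs false
set_option linter.unnecessarySeqFocus false
set_option linter.unusedVariables false

open Finset Matrix

namespace Pool.Agent.Helper347.Sab

section core

variable {Pos Edg I R : Type} [Fintype Pos] [DecidableEq Pos]
  [Fintype I] [DecidableEq I] [Fintype R] [DecidableEq R]

/-- index of positions in blocks -/
abbrev Qx (I R : Type) : Type := (I × Fin 2) ⊕ (R × Fin 3)

/-- index of variables -/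
abbrev Nx (I R : Type) : Type := I ⊕ (R ⊕ R)

/-- first end -/
def fi : Nx I R → Qx I R
  | Sum.inl i => Sum.inl (i, 0)
  | Sum.inr (Sum.inl u) => Sum.inr (u, 0)
  | Sum.inr (Sum.inr u) => Sum.inr (u, 1)

/-- second end -/
def si : Nx I R → Qx I R
  | Sum.inl i => Sum.inl (i, 1)
  | Sum.inr (Sum.inl u) => Sum.inr (u, 2)
  | Sum.inr (Sum.inr u) => Sum.inr (u, 2)

/-- correction -/
def cor : Nx I R → Nx I R → ZMod 2
  | Sum.inr (Sum.inl u), Sum.inr (Sum.inr v) => if u = v then 1 else 0
  | _, _ => 0

theorem ends_formula (j k : Nx I R) (hjk : j ≠ k) :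
    ((if fi j = fi k then 1 else 0) + (if fi j = si k then 1 else 0) +
      ((if si j = fi k then 1 else 0) + (if si j = si k then 1 else 0)) : ZMod 2) =
      cor j k + cor k j := by
  rcases j with i | u | u <;> rcases k with i' | v | v
  · have : i ≠ i' := fun h => hjk (by rw [h])
    simp [fi, si, cor, this]
  · simp [fi, si, cor]
  · simp [fi, si, cor]
  · simp [fi, si, cor]
  · have : u ≠ v := fun h => hjk (by rw [h])
    simp [fi, si, cor, this]
  · by_cases h : u = v
    · subst h; simp [fi, si, cor]
    · simp [fi, si, cor, h]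
  · simp [fi, si, cor]
  · by_cases h : u = v
    · subst h; simp [fi, si, cor]
    · simp [fi, si, cor, h, Ne.symm h]
  · have : u ≠ v := fun h => hjk (by rw [h])
    simp [fi, si, cor, this]

theorem sum_pick (F : Pos → ZMod 2) (a b : Pos) :
    ∑ p, F p * ((if p = a then 1 else 0) + (if p = b then 1 else 0)) = F a + F b := by
  simp [mul_add, sum_add_distrib]

theorem tri_even {K : Type} [DecidableEq (K → ZMod 2)] (c0 c0' c1 c1' c2 c2' xa xb : K → ZMod 2)
    (S ta tb : ZMod 2)
    (w : ∀ x, c0 x + c0' x = xa x ∧ c1 x + c1' x = xb x ∧ c2 x + c2' x = xa x + xb x ∧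
      c0 x + c2 x + xb x + S * xb x = ta * xa x ∧ c1 x + c2 x + S * xa x = tb * xb x)
    (c : K → ZMod 2) :
    Even (((if c0 = c then 1 else 0) + (if c0' = c then 1 else 0)) +
      ((if c1 = c then 1 else 0) + (if c1' = c then 1 else 0)) +
      ((if c2 = c then 1 else 0) + (if c2' = c then 1 else 0))) := by
  rcases z2_cases S with hS | hS <;> rcases z2_cases ta with ha | ha <;>
    rcases z2_cases tb with hb | hb <;> subst hS <;> subst ha <;> subst hb
  · have e1 : c0' = c2' := by
      funext x; have := w x; revert this
      generalize c0 x = a0; generalize c0' x = a1; generalize c1 x = a2; generalize c1' x = a3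
      generalize c2 x = a4; generalize c2' x = a5; generalize xa x = a6; generalize xb x = a7
      revert a0 a1 a2 a3 a4 a5 a6 a7; decide
    have e2 : c1 = c2 := by
      funext x; have := w x; revert this
      generalize c0 x = a0; generalize c0' x = a1; generalize c1 x = a2; generalize c1' x = a3
      generalize c2 x = a4; generalize c2' x = a5; generalize xa x = a6; generalize xb x = a7
      revert a0 a1 a2 a3 a4 a5 a6 a7; decide
    have e3 : c1' = c0 := by
      funext x; have := w x; revert this
      generalize c0 x = a0; generalize c0' x = a1; generalize c1 x = a2; generalize c1' x = a3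
      generalize c2 x = a4; generalize c2' x = a5; generalize xa x = a6; generalize xb x = a7
      revert a0 a1 a2 a3 a4 a5 a6 a7; decide
    rw [e1, e2, e3]; split_ifs <;> decide
  · have e1 : c0' = c2' := by
      funext x; have := w x; revert this
      generalize c0 x = a0; generalize c0' x = a1; generalize c1 x = a2; generalize c1' x = a3
      generalize c2 x = a4; generalize c2' x = a5; generalize xa x = a6; generalize xb x = a7
      revert a0 a1 a2 a3 a4 a5 a6 a7; decide
    have e2 : c1' = c2 := by
      funext x; have := w x; revert this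
      generalize c0 x = a0; generalize c0' x = a1; generalize c1 x = a2; generalize c1' x = a3
      generalize c2 x = a4; generalize c2' x = a5; generalize xa x = a6; generalize xb x = a7
      revert a0 a1 a2 a3 a4 a5 a6 a7; decide
    have e3 : c1 = c0 := by
      funext x; have := w x; revert this
      generalize c0 x = a0; generalize c0' x = a1; generalize c1 x = a2; generalize c1' x = a3
      generalize c2 x = a4; generalize c2' x = a5; generalize xa x = a6; generalize xb x = a7
      revert a0 a1 a2 a3 a4 a5 a6 a7; decide
    rw [e1, e2, e3]; split_ifs <;> decide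
  · have e1 : c0 = c2' := by
      funext x; have := w x; revert this
      generalize c0 x = a0; generalize c0' x = a1; generalize c1 x = a2; generalize c1' x = a3
      generalize c2 x = a4; generalize c2' x = a5; generalize xa x = a6; generalize xb x = a7
      revert a0 a1 a2 a3 a4 a5 a6 a7; decide
    have e2 : c1 = c2 := by
      funext x; have := w x; revert this
      generalize c0 x = a0; generalize c0' x = a1; generalize c1 x = a2; generalize c1' x = a3
      generalize c2 x = a4; generalize c2' x = a5; generalize xa x = a6; generalize xb x = a7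
      revert a0 a1 a2 a3 a4 a5 a6 a7; decide
    have e3 : c1' = c0' := by
      funext x; have := w x; revert this
      generalize c0 x = a0; generalize c0' x = a1; generalize c1 x = a2; generalize c1' x = a3
      generalize c2 x = a4; generalize c2' x = a5; generalize xa x = a6; generalize xb x = a7
      revert a0 a1 a2 a3 a4 a5 a6 a7; decide
    rw [e1, e2, e3]; split_ifs <;> decide
  · have e1 : c0 = c2' := by
      funext x; have := w x; revert this
      generalize c0 x = a0; generalize c0' x = a1; generalize c1 x = a2; generalize c1' x = a3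
      generalize c2 x = a4; generalize c2' x = a5; generalize xa x = a6; generalize xb x = a7
      revert a0 a1 a2 a3 a4 a5 a6 a7; decide
    have e2 : c1' = c2 := by
      funext x; have := w x; revert this
      generalize c0 x = a0; generalize c0' x = a1; generalize c1 x = a2; generalize c1' x = a3
      generalize c2 x = a4; generalize c2' x = a5; generalize xa x = a6; generalize xb x = a7
      revert a0 a1 a2 a3 a4 a5 a6 a7; decide
    have e3 : c1 = c0' := by
      funext x; have := w x; revert this
      generalize c0 x = a0; generalize c0' x = a1; generalize c1 x = a2; generalize c1' x = a3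
      generalize c2 x = a4; generalize c2' x = a5; generalize xa x = a6; generalize xb x = a7
      revert a0 a1 a2 a3 a4 a5 a6 a7; decide
    rw [e1, e2, e3]; split_ifs <;> decide
  · have e1 : c0 = c2 := by
      funext x; have := w x; revert this
      generalize c0 x = a0; generalize c0' x = a1; generalize c1 x = a2; generalize c1' x = a3
      generalize c2 x = a4; generalize c2' x = a5; generalize xa x = a6; generalize xb x = a7
      revert a0 a1 a2 a3 a4 a5 a6 a7; decide
    have e2 : c1' = c2' := by
      funext x; have := w x; revert this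
      generalize c0 x = a0; generalize c0' x = a1; generalize c1 x = a2; generalize c1' x = a3
      generalize c2 x = a4; generalize c2' x = a5; generalize xa x = a6; generalize xb x = a7
      revert a0 a1 a2 a3 a4 a5 a6 a7; decide
    have e3 : c1 = c0' := by
      funext x; have := w x; revert this
      generalize c0 x = a0; generalize c0' x = a1; generalize c1 x = a2; generalize c1' x = a3
      generalize c2 x = a4; generalize c2' x = a5; generalize xa x = a6; generalize xb x = a7
      revert a0 a1 a2 a3 a4 a5 a6 a7; decide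
    rw [e1, e2, e3]; split_ifs <;> decide
  · have e1 : c0 = c2 := by
      funext x; have := w x; revert this
      generalize c0 x = a0; generalize c0' x = a1; generalize c1 x = a2; generalize c1' x = a3
      generalize c2 x = a4; generalize c2' x = a5; generalize xa x = a6; generalize xb x = a7
      revert a0 a1 a2 a3 a4 a5 a6 a7; decide
    have e2 : c1 = c2' := by
      funext x; have := w x; revert this
      generalize c0 x = a0; generalize c0' x = a1; generalize c1 x = a2; generalize c1' x = a3
      generalize c2 x = a4; generalize c2' x = a5; generalize xa x = a6; generalize xb x = a7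
      revert a0 a1 a2 a3 a4 a5 a6 a7; decide
    have e3 : c1' = c0' := by
      funext x; have := w x; revert this
      generalize c0 x = a0; generalize c0' x = a1; generalize c1 x = a2; generalize c1' x = a3
      generalize c2 x = a4; generalize c2' x = a5; generalize xa x = a6; generalize xb x = a7
      revert a0 a1 a2 a3 a4 a5 a6 a7; decide
    rw [e1, e2, e3]; split_ifs <;> decide
  · have e1 : c0' = c2 := by
      funext x; have := w x; revert this
      generalize c0 x = a0; generalize c0' x = a1; generalize c1 x = a2; generalize c1' x = a3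
      generalize c2 x = a4; generalize c2' x = a5; generalize xa x = a6; generalize xb x = a7
      revert a0 a1 a2 a3 a4 a5 a6 a7; decide
    have e2 : c1' = c2' := by
      funext x; have := w x; revert this
      generalize c0 x = a0; generalize c0' x = a1; generalize c1 x = a2; generalize c1' x = a3
      generalize c2 x = a4; generalize c2' x = a5; generalize xa x = a6; generalize xb x = a7
      revert a0 a1 a2 a3 a4 a5 a6 a7; decide
    have e3 : c1 = c0 := by
      funext x; have := w x; revert this
      generalize c0 x = a0; generalize c0' x = a1; generalize c1 x = a2; generalize c1' x = a3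
      generalize c2 x = a4; generalize c2' x = a5; generalize xa x = a6; generalize xb x = a7
      revert a0 a1 a2 a3 a4 a5 a6 a7; decide
    rw [e1, e2, e3]; split_ifs <;> decide
  · have e1 : c0' = c2 := by
      funext x; have := w x; revert this
      generalize c0 x = a0; generalize c0' x = a1; generalize c1 x = a2; generalize c1' x = a3
      generalize c2 x = a4; generalize c2' x = a5; generalize xa x = a6; generalize xb x = a7
      revert a0 a1 a2 a3 a4 a5 a6 a7; decide
    have e2 : c1 = c2' := by
      funext x; have := w x; revert this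
      generalize c0 x = a0; generalize c0' x = a1; generalize c1 x = a2; generalize c1' x = a3
      generalize c2 x = a4; generalize c2' x = a5; generalize xa x = a6; generalize xb x = a7
      revert a0 a1 a2 a3 a4 a5 a6 a7; decide
    have e3 : c1' = c0 := by
      funext x; have := w x; revert this
      generalize c0 x = a0; generalize c0' x = a1; generalize c1 x = a2; generalize c1' x = a3
      generalize c2 x = a4; generalize c2' x = a5; generalize xa x = a6; generalize xb x = a7
      revert a0 a1 a2 a3 a4 a5 a6 a7; decide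
    rw [e1, e2, e3]; split_ifs <;> decide

theorem core (l r : Pos → Edg)
    (H1 : ∀ h : Edg → ZMod 2, ∑ p, (h (l p) + h (r p)) = 0)
    (H2 : ∀ p q : Pos, ∃ b : Edg → ZMod 2, ∀ x,
      b (l x) + b (r x) = (if x = p then 1 else 0) + (if x = q then 1 else 0))
    (pos : Qx I R → Pos) (hpos : Function.Injective pos) :
    ∃ (F : Type) (_ : Fintype F) (_ : DecidableEq F) (col : Edg → F),
      (∀ q, col (l (pos q)) ≠ col (r (pos q))) ∧
      (∀ p, p ∉ Set.range pos → col (l p) = col (r p)) ∧
      (∀ (i : I) (c : F), Even (∑ k : Fin 2, ((if col (l (pos (Sum.inl (i, k)))) = c then 1 else 0) +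
        (if col (r (pos (Sum.inl (i, k)))) = c then 1 else 0)))) ∧
      (∀ (u : R) (c : F), Even (∑ k : Fin 3, ((if col (l (pos (Sum.inr (u, k)))) = c then 1 else 0) +
        (if col (r (pos (Sum.inr (u, k)))) = c then 1 else 0)))) := by
  classical
  -- potentials
  have hb : ∀ j : Nx I R, ∃ b : Edg → ZMod 2, ∀ x,
      b (l x) + b (r x) = (if x = pos (fi j) then 1 else 0) + (if x = pos (si j) then 1 else 0) :=
    fun j => H2 _ _
  choose b hb using hb
  have h2 : ∀ z : ZMod 2, z + z = 0 := by decide
  have hbr : ∀ j x, b j (r x) = b j (l x) +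
      ((if x = pos (fi j) then 1 else 0) + (if x = pos (si j) then 1 else 0)) := by
    intro j x
    rw [← hb j x]
    linear_combination (-1 : ZMod 2) * h2 (b j (l x))
  obtain ⟨A, hAdef⟩ : ∃ A : Matrix (Nx I R) (Nx I R) (ZMod 2),
      ∀ j k, A j k = b k (l (pos (fi j))) + b k (l (pos (si j))) + cor j k := ⟨Matrix.of _, fun _ _ => rfl⟩
  have hfs : ∀ j : Nx I R, fi j ≠ si j := by
    intro j
    rcases j with i | u | u <;> simp [fi, si]
  have hA : A.IsSymm := by
    ext j k
    rw [Matrix.transpose_apply, hAdef, hAdef]
    by_cases hjk : j = k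
    · rw [hjk]
    · have e1 := H1 (fun e => b j e * b k e)
      have e2 : ∀ p, b j (l p) * b k (l p) + b j (r p) * b k (r p) =
          b j (l p) * ((if p = pos (fi k) then 1 else 0) + (if p = pos (si k) then 1 else 0)) +
          b k (l p) * ((if p = pos (fi j) then 1 else 0) + (if p = pos (si j) then 1 else 0)) +
          ((if p = pos (fi j) then 1 else 0) + (if p = pos (si j) then 1 else 0)) *
          ((if p = pos (fi k) then 1 else 0) + (if p = pos (si k) then 1 else 0)) := by
        intro p
        rw [hbr j p, hbr k p]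
        linear_combination h2 (b j (l p) * b k (l p))
      simp only [e2, sum_add_distrib] at e1
      rw [sum_pick (fun p => b j (l p)), sum_pick (fun p => b k (l p)),
        sum_pick (fun p => (if p = pos (fi j) then 1 else 0) + (if p = pos (si j) then 1 else 0))]
        at e1
      have e3 := ends_formula j k hjk
      simp only [hpos.eq_iff] at e1
      have e4 : ∀ x y : Qx I R, (if x = y then (1 : ZMod 2) else 0) = if y = x then 1 else 0 := by
        intro x y; simp only [eq_comm]
      rw [e4 (fi k) (fi j), e4 (fi k) (si j), e4 (si k) (fi j), e4 (si k) (si j)] at e1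
      linear_combination e1 - e3 - h2 (b k (l (pos (fi j)))) - h2 (b k (l (pos (si j)))) -
        h2 (cor j k)
  obtain ⟨s, t, hg1, hg2⟩ := algebra A hA (fun u : R => (Sum.inr (Sum.inl u) : Nx I R))
    (fun u : R => Sum.inr (Sum.inr u)) (by
      rintro (u | u) (v | v) h
      · simp only [Sum.elim_inl, Sum.inr.injEq, Sum.inl.injEq] at h; rw [h]
      · simp at h
      · simp at h
      · simp only [Sum.elim_inr, Sum.inr.injEq] at h; rw [h])
  obtain ⟨K, hK⟩ : ∃ K, K = KK (As A (fun u : R => (Sum.inr (Sum.inl u) : Nx I R))
    (fun u : R => Sum.inr (Sum.inr u)) s) (full t) := ⟨_, rfl⟩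
  rw [← hK] at hg1 hg2
  have hmem : ∀ x : Nx I R → ZMod 2, x ∈ K → ∀ i, (As A (fun u : R => (Sum.inr (Sum.inl u) : Nx I R))
      (fun u : R => Sum.inr (Sum.inr u)) s *ᵥ x) i = t i * x i := by
    intro x hx i
    rw [hK, mem_KK] at hx
    have := hx i
    unfold full at this
    rcases z2_cases (t i) with h | h
    · rw [if_pos h] at this
      rw [h, zero_mul]; exact this
    · rw [if_neg (by rw [h]; exact one_ne_zero)] at this
      rw [h, one_mul]
      revert this
      show x i + _ = 0 → _
      generalize x i = a
      generalize (As A _ _ s *ᵥ x) i = b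
      revert a b; decide
  -- the potential of a vector
  obtain ⟨a, ha⟩ : ∃ a : (Nx I R → ZMod 2) → Edg → ZMod 2, ∀ x e, a x e = ∑ j, x j * b j e :=
    ⟨_, fun _ _ => rfl⟩
  have had : ∀ x p, a x (l p) + a x (r p) =
      ∑ j, x j * ((if p = pos (fi j) then 1 else 0) + (if p = pos (si j) then 1 else 0)) := by
    intro x p
    rw [ha, ha, ← sum_add_distrib]
    refine sum_congr rfl fun j _ => ?_
    rw [← hb j p]; ring
  have hAx : ∀ x j, (A *ᵥ x) j = a x (l (pos (fi j))) + a x (l (pos (si j))) +
      ∑ k, cor j k * x k := by
    intro x j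
    rw [ha, ha, Matrix.mulVec, dotProduct, ← sum_add_distrib, ← sum_add_distrib]
    refine sum_congr rfl fun k _ => ?_
    rw [hAdef]; ring
  have hI : ∀ x ∈ K, ∀ i : I, a x (l (pos (Sum.inl (i, 0)))) + a x (l (pos (Sum.inl (i, 1)))) =
      t (Sum.inl i) * x (Sum.inl i) := by
    intro x hx i
    have h1 := hmem x hx (Sum.inl i)
    rw [As_mulVec, Pi.add_apply, hAx] at h1
    have e1 : ∑ k, cor (Sum.inl i : Nx I R) k * x k = 0 := by
      refine sum_eq_zero fun k _ => ?_
      rcases k with k | k | k <;> simp [cor]
    have e2 : (∑ u, s u • ((Pi.single (Sum.inr (Sum.inl u)) (x (Sum.inr (Sum.inr u))) :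
        Nx I R → ZMod 2) + (Pi.single (Sum.inr (Sum.inr u)) (x (Sum.inr (Sum.inl u))) :
        Nx I R → ZMod 2)) : Nx I R → ZMod 2) (Sum.inl i) = 0 := by
      rw [Finset.sum_apply]
      refine sum_eq_zero fun u _ => ?_
      simp
    rw [e1, e2, add_zero, add_zero] at h1
    exact h1
  have hα : ∀ x ∈ K, ∀ u : R, a x (l (pos (Sum.inr (u, 0)))) + a x (l (pos (Sum.inr (u, 2)))) +
      x (Sum.inr (Sum.inr u)) + s u * x (Sum.inr (Sum.inr u)) =
      t (Sum.inr (Sum.inl u)) * x (Sum.inr (Sum.inl u)) := by
    intro x hx u
    have h1 := hmem x hx (Sum.inr (Sum.inl u))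
    rw [As_mulVec, Pi.add_apply, hAx] at h1
    have e1 : ∑ k, cor (Sum.inr (Sum.inl u) : Nx I R) k * x k = x (Sum.inr (Sum.inr u)) := by
      rw [sum_eq_single (Sum.inr (Sum.inr u))]
      · simp [cor]
      · intro k _ hk
        rcases k with k | k | k
        · simp [cor]
        · simp [cor]
        · have : u ≠ k := fun h => hk (by rw [h])
          simp [cor, this]
      · simp
    have e2 : (∑ v, s v • ((Pi.single (Sum.inr (Sum.inl v)) (x (Sum.inr (Sum.inr v))) :
        Nx I R → ZMod 2) + (Pi.single (Sum.inr (Sum.inr v)) (x (Sum.inr (Sum.inl v))) :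
        Nx I R → ZMod 2)) : Nx I R → ZMod 2)
        (Sum.inr (Sum.inl u)) = s u * x (Sum.inr (Sum.inr u)) := by
      rw [Finset.sum_apply, sum_eq_single u]
      · simp
      · intro v _ hv
        simp [Pi.single_apply, hv.symm]
      · simp
    rw [e1, e2] at h1
    exact h1
  have hβ : ∀ x ∈ K, ∀ u : R, a x (l (pos (Sum.inr (u, 1)))) + a x (l (pos (Sum.inr (u, 2)))) +
      s u * x (Sum.inr (Sum.inl u)) =
      t (Sum.inr (Sum.inr u)) * x (Sum.inr (Sum.inr u)) := by
    intro x hx u
    have h1 := hmem x hx (Sum.inr (Sum.inr u))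
    rw [As_mulVec, Pi.add_apply, hAx] at h1
    have e1 : ∑ k, cor (Sum.inr (Sum.inr u) : Nx I R) k * x k = 0 := by
      refine sum_eq_zero fun k _ => ?_
      rcases k with k | k | k <;> simp [cor]
    have e2 : (∑ v, s v • ((Pi.single (Sum.inr (Sum.inl v)) (x (Sum.inr (Sum.inr v))) :
        Nx I R → ZMod 2) + (Pi.single (Sum.inr (Sum.inr v)) (x (Sum.inr (Sum.inl v))) :
        Nx I R → ZMod 2)) : Nx I R → ZMod 2)
        (Sum.inr (Sum.inr u)) = s u * x (Sum.inr (Sum.inl u)) := by
      rw [Finset.sum_apply, sum_eq_single u]
      · simp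
      · intro v _ hv
        simp [Pi.single_apply, hv.symm]
      · simp
    rw [e1, e2, add_zero] at h1
    exact h1
  -- jumps
  have hjump : ∀ x (q : Qx I R), a x (l (pos q)) + a x (r (pos q)) =
      ∑ j, x j * ((if q = fi j then 1 else 0) + (if q = si j then 1 else 0)) := by
    intro x q
    rw [had]
    simp only [hpos.eq_iff]
  have hjI : ∀ x (i : I) (k : Fin 2), a x (l (pos (Sum.inl (i, k)))) + a x (r (pos (Sum.inl (i, k)))) =
      x (Sum.inl i) := by
    intro x i k
    rw [hjump, sum_eq_single (Sum.inl i)]
    · fin_cases k <;> simp [fi, si]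
    · intro j _ hj
      rcases j with j | j | j
      · have : i ≠ j := fun h => hj (by rw [h])
        simp [fi, si, this]
      · simp [fi, si]
      · simp [fi, si]
    · simp
  have hj0 : ∀ x (u : R), a x (l (pos (Sum.inr (u, 0)))) + a x (r (pos (Sum.inr (u, 0)))) =
      x (Sum.inr (Sum.inl u)) := by
    intro x u
    rw [hjump, sum_eq_single (Sum.inr (Sum.inl u))]
    · simp [fi, si]
    · intro j _ hj
      rcases j with j | j | j
      · simp [fi, si]
      · have : u ≠ j := fun h => hj (by rw [h])
        simp [fi, si, this]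
      · simp [fi, si]
    · simp
  have hj1 : ∀ x (u : R), a x (l (pos (Sum.inr (u, 1)))) + a x (r (pos (Sum.inr (u, 1)))) =
      x (Sum.inr (Sum.inr u)) := by
    intro x u
    rw [hjump, sum_eq_single (Sum.inr (Sum.inr u))]
    · simp [fi, si]
    · intro j _ hj
      rcases j with j | j | j
      · simp [fi, si]
      · simp [fi, si]
      · have : u ≠ j := fun h => hj (by rw [h])
        simp [fi, si, this]
    · simp
  have hj2 : ∀ x (u : R), a x (l (pos (Sum.inr (u, 2)))) + a x (r (pos (Sum.inr (u, 2)))) =
      x (Sum.inr (Sum.inl u)) + x (Sum.inr (Sum.inr u)) := by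
    intro x u
    rw [hjump, ← Finset.add_sum_erase _ _ (mem_univ (Sum.inr (Sum.inl u))),
      sum_eq_single (Sum.inr (Sum.inr u))]
    · simp [fi, si]
    · intro j hj' hj
      rcases j with j | j | j
      · simp [fi, si]
      · have : u ≠ j := fun h => (ne_of_mem_erase hj') (by rw [h])
        simp [fi, si, this]
      · have : u ≠ j := fun h => hj (by rw [h])
        simp [fi, si, this]
    · intro h
      exact absurd (mem_erase.2 ⟨by simp, mem_univ _⟩) h
  obtain ⟨col, hcol⟩ : ∃ col : Edg → K → ZMod 2, ∀ e (x : K), col e x = a x e :=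
    ⟨fun e x => a x e, fun _ _ => rfl⟩
  refine ⟨K → ZMod 2, inferInstance, inferInstance, col, ?_, ?_, ?_, ?_⟩
  · -- proper
    intro q he
    have he' : ∀ x ∈ K, a x (l (pos q)) + a x (r (pos q)) = 0 := by
      intro x hx
      have := congrFun he ⟨x, hx⟩
      rw [hcol, hcol] at this
      rw [this, h2]
    rcases q with ⟨i, k⟩ | ⟨u, k⟩
    · obtain ⟨x, hx, hne⟩ := hg1 (Sum.inl i)
      exact hne (by rw [← hjI x i k]; exact he' x hx)
    · fin_cases k
      · obtain ⟨x, hx, hne⟩ := hg1 (Sum.inr (Sum.inl u))
        exact hne (by rw [← hj0 x u]; exact he' x hx)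
      · obtain ⟨x, hx, hne⟩ := hg1 (Sum.inr (Sum.inr u))
        exact hne (by rw [← hj1 x u]; exact he' x hx)
      · obtain ⟨x, hx, hne⟩ := hg2 u
        exact hne (by rw [← hj2 x u]; exact he' x hx)
  · intro p hp
    funext x
    have h1 := had x p
    have h3 : ∑ j, (x : Nx I R → ZMod 2) j *
        ((if p = pos (fi j) then 1 else 0) + (if p = pos (si j) then 1 else 0)) = 0 := by
      refine sum_eq_zero fun j _ => ?_
      rw [if_neg fun h => hp ⟨_, h.symm⟩, if_neg fun h => hp ⟨_, h.symm⟩, add_zero, mul_zero]
    rw [h3] at h1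
    rw [hcol, hcol]
    revert h1
    generalize a x (l p) = c
    generalize a x (r p) = d
    revert c d; decide
  · intro i c
    rw [Fin.sum_univ_two]
    rcases z2_cases (t (Sum.inl i)) with ht | ht
    · have q1 : col (l (pos (Sum.inl (i, 0)))) = col (l (pos (Sum.inl (i, 1)))) := by
        funext x
        rw [hcol, hcol]
        have w1 := hI x x.2 i
        rw [ht] at w1
        revert w1
        generalize a x (l (pos (Sum.inl (i, 0)))) = c
        generalize a x (l (pos (Sum.inl (i, 1)))) = d
        generalize (x : Nx I R → ZMod 2) (Sum.inl i) = e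
        revert c d e; decide
      have q2 : col (r (pos (Sum.inl (i, 0)))) = col (r (pos (Sum.inl (i, 1)))) := by
        funext x
        rw [hcol, hcol]
        have w1 := hI x x.2 i
        have w2 := hjI x i 0
        have w3 := hjI x i 1
        rw [ht] at w1
        revert w1 w2 w3
        generalize a x (l (pos (Sum.inl (i, 0)))) = c
        generalize a x (l (pos (Sum.inl (i, 1)))) = d
        generalize a x (r (pos (Sum.inl (i, 0)))) = c'
        generalize a x (r (pos (Sum.inl (i, 1)))) = d'
        generalize (x : Nx I R → ZMod 2) (Sum.inl i) = e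
        revert c d c' d' e; decide
      rw [q1, q2]
      exact ⟨_, rfl⟩
    · have q1 : col (l (pos (Sum.inl (i, 0)))) = col (r (pos (Sum.inl (i, 1)))) := by
        funext x
        rw [hcol, hcol]
        have w1 := hI x x.2 i
        have w3 := hjI x i 1
        rw [ht] at w1
        revert w1 w3
        generalize a x (l (pos (Sum.inl (i, 0)))) = c
        generalize a x (l (pos (Sum.inl (i, 1)))) = d
        generalize a x (r (pos (Sum.inl (i, 1)))) = d'
        generalize (x : Nx I R → ZMod 2) (Sum.inl i) = e
        revert c d d' e; decide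
      have q2 : col (r (pos (Sum.inl (i, 0)))) = col (l (pos (Sum.inl (i, 1)))) := by
        funext x
        rw [hcol, hcol]
        have w1 := hI x x.2 i
        have w2 := hjI x i 0
        rw [ht] at w1
        revert w1 w2
        generalize a x (l (pos (Sum.inl (i, 0)))) = c
        generalize a x (l (pos (Sum.inl (i, 1)))) = d
        generalize a x (r (pos (Sum.inl (i, 0)))) = c'
        generalize (x : Nx I R → ZMod 2) (Sum.inl i) = e
        revert c d c' e; decide
      rw [q1, q2]
      split_ifs <;> decide
  · intro u c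
    rw [Fin.sum_univ_three]
    -- pointwise relations
    have w : ∀ x : K, (col (l (pos (Sum.inr (u, 0)))) x + col (r (pos (Sum.inr (u, 0)))) x =
          (x : Nx I R → ZMod 2) (Sum.inr (Sum.inl u))) ∧
        (col (l (pos (Sum.inr (u, 1)))) x + col (r (pos (Sum.inr (u, 1)))) x =
          (x : Nx I R → ZMod 2) (Sum.inr (Sum.inr u))) ∧
        (col (l (pos (Sum.inr (u, 2)))) x + col (r (pos (Sum.inr (u, 2)))) x =
          (x : Nx I R → ZMod 2) (Sum.inr (Sum.inl u)) + (x : Nx I R → ZMod 2) (Sum.inr (Sum.inr u))) ∧
        (col (l (pos (Sum.inr (u, 0)))) x + col (l (pos (Sum.inr (u, 2)))) x +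
          (x : Nx I R → ZMod 2) (Sum.inr (Sum.inr u)) +
          s u * (x : Nx I R → ZMod 2) (Sum.inr (Sum.inr u)) =
          t (Sum.inr (Sum.inl u)) * (x : Nx I R → ZMod 2) (Sum.inr (Sum.inl u))) ∧
        (col (l (pos (Sum.inr (u, 1)))) x + col (l (pos (Sum.inr (u, 2)))) x +
          s u * (x : Nx I R → ZMod 2) (Sum.inr (Sum.inl u)) =
          t (Sum.inr (Sum.inr u)) * (x : Nx I R → ZMod 2) (Sum.inr (Sum.inr u))) := by
      intro x
      simp only [hcol]
      exact ⟨hj0 x u, hj1 x u, hj2 x u, hα x x.2 u, hβ x x.2 u⟩
    generalize col (l (pos (Sum.inr (u, 0)))) = c0 at w ⊢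
    generalize col (r (pos (Sum.inr (u, 0)))) = c0' at w ⊢
    generalize col (l (pos (Sum.inr (u, 1)))) = c1 at w ⊢
    generalize col (r (pos (Sum.inr (u, 1)))) = c1' at w ⊢
    generalize col (l (pos (Sum.inr (u, 2)))) = c2 at w ⊢
    generalize col (r (pos (Sum.inr (u, 2)))) = c2' at w ⊢
    obtain ⟨xa, hxa⟩ : ∃ xa : K → ZMod 2, ∀ x : K, (x : Nx I R → ZMod 2) (Sum.inr (Sum.inl u)) = xa x :=
      ⟨_, fun _ => rfl⟩
    obtain ⟨xb, hxb⟩ : ∃ xb : K → ZMod 2, ∀ x : K, (x : Nx I R → ZMod 2) (Sum.inr (Sum.inr u)) = xb x :=
      ⟨_, fun _ => rfl⟩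
    simp only [hxa, hxb] at w
    generalize s u = S at w
    generalize t (Sum.inr (Sum.inl u)) = ta at w
    generalize t (Sum.inr (Sum.inr u)) = tb at w
    exact tri_even c0 c0' c1 c1' c2 c2' xa xb S ta tb w c

end core

end Pool.Agent.Helper347.Sab
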