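import Mathlib

set_option autoImplicit false
set_option linter.unusedSectionVars false
set_option linter.unusedSimpArgs false
set_option linter.unnecessarySeqFocus false
set_option linter.unusedVariables false

open Finset

namespace Pool.Agent.Helper347.Sab

/-- A finite loopless multigraph with vertex type V and edge type E; parallel edges are allowed. -/
structure MGraph (V E : Type) where
  ends : E → Sym2 V
  loopless : ∀ e, ¬ (ends e).IsDiag

variable {V E : Type} [Fintype V] [DecidableEq V] [Fintype E] [DecidableEq E]

/-- The degree of the vertex v in the subgraph with edge set F. -/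
def dg (G : MGraph V E) (F : Finset E) (v : V) : ℕ := (F.filter fun e => v ∈ G.ends e).card

/-- Two edges share a vertex. -/
def Touch (G : MGraph V E) (e f : E) : Prop := ∃ v, v ∈ G.ends e ∧ v ∈ G.ends f

/-- C is (the edge set of) a circuit: a nonempty connected 2-regular subgraph. Connected: any two
edges of C are joined by a chain of edges of C in which consecutive edges share a vertex. -/
def IsCircuit (G : MGraph V E) (C : Finset E) : Prop :=
  C.Nonempty ∧ (∀ v, dg G C v = 0 ∨ dg G C v = 2) ∧
    ∀ e ∈ C, ∀ f ∈ C, Relation.ReflTransGen (fun a b => b ∈ C ∧ Touch G a b) e f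

/-- Every vertex has degree 3. -/
def IsCubic (G : MGraph V E) : Prop := ∀ v, dg G univ v = 3

/-- A circuit double cover: a finite family (multiset) of circuits such that every edge lies in
exactly two members, counted with multiplicity. -/
def IsCDC (G : MGraph V E) (F : Multiset (Finset E)) : Prop :=
  (∀ X ∈ F, IsCircuit G X) ∧ ∀ e, F.countP (fun X => e ∈ X) = 2

end Pool.Agent.Helper347.Sab
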