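import Pool.Agent.Helper347.SabCore
import Pool.Agent.Helper347.SabDefs

set_option autoImplicit false
set_option linter.unusedSectionVars false
set_option linter.unusedSimpArgs false
set_option linter.unnecessarySeqFocus false
set_option linter.unusedVariables false

open Finset

namespace Pool.Agent.Helper347.Sab

variable {V E : Type} [Fintype V] [DecidableEq V] [Fintype E] [DecidableEq E]

theorem exists_ends (G : MGraph V E) (e : E) : ∃ a b, a ≠ b ∧ G.ends e = s(a, b) := by
  obtain ⟨a, b, h⟩ : ∃ a b, G.ends e = s(a, b) := by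
    induction G.ends e using Sym2.ind with
    | _ a b => exact ⟨a, b, rfl⟩
  refine ⟨a, b, fun hab => ?_, h⟩
  apply G.loopless e
  rw [h, hab]
  exact Sym2.mk_isDiag_iff.2 rfl

/-- the component of an edge -/
theorem component (G : MGraph V E) (D : Finset E) (hD : ∀ v, dg G D v = 0 ∨ dg G D v = 2)
    (hne : D.Nonempty) : ∃ X, X ⊆ D ∧ IsCircuit G X ∧ ∀ v, dg G (D \ X) v = 0 ∨ dg G (D \ X) v = 2 := by
  classical
  obtain ⟨e0, he0⟩ := hne
  obtain ⟨X, hX⟩ : ∃ X, X = D.filter fun f =>
      Relation.ReflTransGen (fun a b => b ∈ D ∧ Touch G a b) e0 f := ⟨_, rfl⟩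
  have hmem : ∀ f, f ∈ X ↔ f ∈ D ∧ Relation.ReflTransGen (fun a b => b ∈ D ∧ Touch G a b) e0 f := by
    intro f; rw [hX, mem_filter]
  have hXD : X ⊆ D := fun f hf => ((hmem f).1 hf).1
  have h0X : e0 ∈ X := (hmem e0).2 ⟨he0, Relation.ReflTransGen.refl⟩
  have hclosed : ∀ f ∈ X, ∀ g ∈ D, Touch G f g → g ∈ X := by
    intro f hf g hg hfg
    exact (hmem g).2 ⟨hg, ((hmem f).1 hf).2.tail ⟨hg, hfg⟩⟩
  -- local structure
  have hloc : ∀ v, (X.filter fun e => v ∈ G.ends e) = ∅ ∨
      (X.filter fun e => v ∈ G.ends e) = (D.filter fun e => v ∈ G.ends e) := by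
    intro v
    by_cases h : (X.filter fun e => v ∈ G.ends e) = ∅
    · exact Or.inl h
    · right
      obtain ⟨f, hf⟩ := Finset.nonempty_iff_ne_empty.2 h
      rw [mem_filter] at hf
      ext g
      rw [mem_filter, mem_filter]
      constructor
      · rintro ⟨h1, h2⟩; exact ⟨hXD h1, h2⟩
      · rintro ⟨h1, h2⟩; exact ⟨hclosed f hf.1 g h1 ⟨v, hf.2, h2⟩, h2⟩
  refine ⟨X, hXD, ⟨⟨e0, h0X⟩, ?_, ?_⟩, ?_⟩
  · intro v
    unfold dg
    rcases hloc v with h | h
    · left; rw [h, card_empty]
    · rw [h]; exact hD v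
  · have hfrom : ∀ f, Relation.ReflTransGen (fun a b => b ∈ D ∧ Touch G a b) e0 f →
        Relation.ReflTransGen (fun a b => b ∈ X ∧ Touch G a b) e0 f ∧ f ∈ X := by
      intro f hf
      induction hf with
      | refl => exact ⟨Relation.ReflTransGen.refl, h0X⟩
      | tail h1 h2 ih =>
        have hb := hclosed _ ih.2 _ h2.1 h2.2
        exact ⟨ih.1.tail ⟨hb, h2.2⟩, hb⟩
    have hto : ∀ f, Relation.ReflTransGen (fun a b => b ∈ D ∧ Touch G a b) e0 f →
        Relation.ReflTransGen (fun a b => b ∈ X ∧ Touch G a b) f e0 ∧ f ∈ X := by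
      intro f hf
      induction hf with
      | refl => exact ⟨Relation.ReflTransGen.refl, h0X⟩
      | tail h1 h2 ih =>
        have hb := hclosed _ ih.2 _ h2.1 h2.2
        obtain ⟨v, hv1, hv2⟩ := h2.2
        exact ⟨Relation.ReflTransGen.head ⟨ih.2, v, hv2, hv1⟩ ih.1, hb⟩
    intro e he f hf
    exact (hto e ((hmem e).1 he).2).1.trans (hfrom f ((hmem f).1 hf).2).1
  · intro v
    unfold dg
    have hfs : (D \ X).filter (fun e => v ∈ G.ends e) =
        (D.filter fun e => v ∈ G.ends e) \ (X.filter fun e => v ∈ G.ends e) := by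
      ext f
      simp only [mem_filter, mem_sdiff]
      tauto
    rw [hfs]
    rcases hloc v with h | h
    · rw [h, sdiff_empty]; exact hD v
    · left; rw [h]; simp

/-- decomposition of an even edge set into circuits -/
theorem decompose (G : MGraph V E) (n : ℕ) : ∀ D : Finset E, D.card ≤ n →
    (∀ v, dg G D v = 0 ∨ dg G D v = 2) →
    ∃ M : Multiset (Finset E), (∀ X ∈ M, IsCircuit G X) ∧
      ∀ e, M.countP (e ∈ ·) = if e ∈ D then 1 else 0 := by
  induction n with
  | zero =>
    intro D hD _
    have : D = ∅ := card_eq_zero.1 (Nat.le_zero.1 hD)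
    subst this
    exact ⟨0, by simp, by simp⟩
  | succ n ih =>
    intro D hcard hD
    rcases D.eq_empty_or_nonempty with h | hne
    · subst h
      exact ⟨0, by simp, by simp⟩
    · obtain ⟨X, hXD, hX, hrest⟩ := component G D hD hne
      have hlt : (D \ X).card ≤ n := by
        have := card_sdiff_add_card_eq_card hXD
        have := hX.1.card_pos
        omega
      obtain ⟨M, hM1, hM2⟩ := ih (D \ X) hlt hrest
      refine ⟨X ::ₘ M, ?_, ?_⟩
      · intro Y hY
        rcases Multiset.mem_cons.1 hY with h | h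
        · rw [h]; exact hX
        · exact hM1 Y h
      · intro e
        rw [Multiset.countP_cons, hM2]
        by_cases h1 : e ∈ X
        · simp [h1, hXD h1]
        · by_cases h2 : e ∈ D <;> simp [h1, h2]

theorem card_ends (G : MGraph V E) (e : E) : (univ.filter fun v => v ∈ G.ends e).card = 2 := by
  obtain ⟨a, b, hab, h⟩ := exists_ends G e
  have : (univ.filter fun v => v ∈ G.ends e) = {a, b} := by
    ext v
    simp [h]
  rw [this, card_pair hab]

/-- double counting over a 2-regular edge set -/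
theorem half_edges (G : MGraph V E) (C : Finset E) (h : E → ZMod 2) :
    ∑ v, ∑ e ∈ C, (if v ∈ G.ends e then h e else 0) = 0 := by
  rw [sum_comm]
  refine sum_eq_zero fun e _ => ?_
  rw [← sum_filter, sum_const, card_ends, two_smul]
  generalize h e = z
  revert z; decide

/-- two vertices of a circuit are joined by a potential -/
theorem potential (G : MGraph V E) (C : Finset E) (hC : IsCircuit G C) (p q : V)
    (hp : dg G C p = 2) (hq : dg G C q = 2) : ∃ b : E → ZMod 2, ∀ x,
      ∑ e ∈ C, (if x ∈ G.ends e then b e else 0) =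
        (if x = p then 1 else 0) + (if x = q then 1 else 0) := by
  have h2 : ∀ z : ZMod 2, z + z = 0 := by decide
  have key : ∀ e ∈ C, ∀ f, Relation.ReflTransGen (fun a b => b ∈ C ∧ Touch G a b) e f →
      ∀ v ∈ G.ends e, ∀ w ∈ G.ends f, ∃ b : E → ZMod 2, ∀ x,
      ∑ e ∈ C, (if x ∈ G.ends e then b e else 0) =
        (if x = v then 1 else 0) + (if x = w then 1 else 0) := by
    have step : ∀ e ∈ C, ∀ v ∈ G.ends e, ∀ w ∈ G.ends e, ∃ b : E → ZMod 2, ∀ x,
        ∑ e ∈ C, (if x ∈ G.ends e then b e else 0) =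
        (if x = v then 1 else 0) + (if x = w then 1 else 0) := by
      intro e he v hv w hw
      by_cases hvw : v = w
      · refine ⟨0, fun x => ?_⟩
        subst hvw
        rw [h2]
        simp
      · refine ⟨Pi.single e 1, fun x => ?_⟩
        rw [sum_eq_single e]
        · have hx : x ∈ G.ends e ↔ x = v ∨ x = w := by
            rw [(Sym2.mem_and_mem_iff hvw).1 ⟨hv, hw⟩, Sym2.mem_iff]
          rw [Pi.single_eq_same]
          by_cases h1 : x = v
          · have h3 : ¬ x = w := fun h => hvw (h1.symm.trans h)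
            rw [if_pos (hx.2 (Or.inl h1)), if_pos h1, if_neg h3, add_zero]
          · by_cases h3 : x = w
            · rw [if_pos (hx.2 (Or.inr h3)), if_neg h1, if_pos h3, zero_add]
            · rw [if_neg (fun h => (hx.1 h).elim h1 h3), if_neg h1, if_neg h3, add_zero]
        · intro f _ hf
          rw [Pi.single_eq_of_ne hf]; simp
        · intro h; exact absurd he h
    intro e he f hf
    induction hf with
    | refl => exact step e he
    | tail h1 h3 ih =>
      rename_i a b
      intro v hv w hw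
      obtain ⟨u, hu1, hu2⟩ := h3.2
      obtain ⟨b1, hb1⟩ := ih v hv u hu1
      obtain ⟨b2, hb2⟩ := step b h3.1 u hu2 w hw
      refine ⟨b1 + b2, fun x => ?_⟩
      have : ∀ e, (if x ∈ G.ends e then (b1 + b2) e else 0) =
          (if x ∈ G.ends e then b1 e else 0) + (if x ∈ G.ends e then b2 e else 0) := by
        intro e
        by_cases h : x ∈ G.ends e
        · rw [if_pos h, if_pos h, if_pos h, Pi.add_apply]
        · rw [if_neg h, if_neg h, if_neg h, add_zero]
      simp only [this, sum_add_distrib, hb1, hb2]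
      have := h2 (if x = u then 1 else 0)
      linear_combination this
  have hne : ∀ v, dg G C v = 2 → ∃ e ∈ C, v ∈ G.ends e := by
    intro v hv
    have : (C.filter fun e => v ∈ G.ends e).Nonempty := by
      rw [← card_pos]; unfold dg at hv; omega
    obtain ⟨e, he⟩ := this
    rw [mem_filter] at he
    exact ⟨e, he.1, he.2⟩
  obtain ⟨e, he, hpe⟩ := hne p hp
  obtain ⟨f, hf, hqf⟩ := hne q hq
  exact key e he f (hC.2.2 e he f hf) p hpe q hqf

theorem countP_sum {ι α : Type} (s : Finset ι) (M : ι → Multiset α) (p : α → Prop)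
    [DecidablePred p] : (∑ i ∈ s, M i).countP p = ∑ i ∈ s, (M i).countP p := by
  classical
  induction s using Finset.induction_on with
  | empty => simp
  | insert a s ha ih => rw [sum_insert ha, sum_insert ha, Multiset.countP_add, ih]

/-- MAIN GRAPH THEOREM -/
theorem dominating_general (G : MGraph V E) (H C : Finset E) (hCH : C ⊆ H) (hC : IsCircuit G C)
    (hon : ∀ v, dg G C v = 2 → dg G H v = 2 ∨ dg G H v = 3)
    (hoff : ∀ v, dg G C v = 0 → dg G H v = 0 ∨ dg G H v = 3)
    (hdom : ∀ e ∈ H, ∃ v ∈ G.ends e, dg G C v = 2) :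
    ∃ F : Multiset (Finset E), (∀ X ∈ F, IsCircuit G X) ∧
      (∀ e, F.countP (e ∈ ·) = if e ∈ H then 2 else 0) ∧ C ∈ F := by
  classical
  -- the two C-edges at a vertex
  have hlr : ∀ p : {v // dg G C v = 2}, ∃ x y : {e // e ∈ C}, x ≠ y ∧
      ∀ e : {e // e ∈ C}, p.1 ∈ G.ends e.1 ↔ e = x ∨ e = y := by
    intro p
    have h1 := p.2
    unfold dg at h1
    obtain ⟨x, y, hxy, h2⟩ := card_eq_two.1 h1
    have hx : x ∈ C.filter fun e => p.1 ∈ G.ends e := by rw [h2]; simp
    have hy : y ∈ C.filter fun e => p.1 ∈ G.ends e := by rw [h2]; simp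
    rw [mem_filter] at hx hy
    refine ⟨⟨x, hx.1⟩, ⟨y, hy.1⟩, fun h => hxy (congrArg Subtype.val h), ?_⟩
    rintro ⟨e, he⟩
    constructor
    · intro h
      have : e ∈ C.filter fun e => p.1 ∈ G.ends e := mem_filter.2 ⟨he, h⟩
      rw [h2, mem_insert, mem_singleton] at this
      rcases this with h3 | h3
      · exact Or.inl (Subtype.ext h3)
      · exact Or.inr (Subtype.ext h3)
    · rintro (h3 | h3)
      · rw [h3]; exact hx.2
      · rw [h3]; exact hy.2
  choose l r hlrne hlrmem using hlr
  have hsum : ∀ (p : {v // dg G C v = 2}) (h : E → ZMod 2),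
      ∑ e ∈ C, (if p.1 ∈ G.ends e then h e else 0) = h (l p).1 + h (r p).1 := by
    intro p h
    rw [← sum_filter]
    have : (C.filter fun e => p.1 ∈ G.ends e) = {(l p).1, (r p).1} := by
      ext e
      rw [mem_filter, mem_insert, mem_singleton]
      constructor
      · rintro ⟨h1, h2⟩
        rcases (hlrmem p ⟨e, h1⟩).1 h2 with h3 | h3
        · exact Or.inl (congrArg Subtype.val h3)
        · exact Or.inr (congrArg Subtype.val h3)
      · rintro (h3 | h3)
        · rw [h3]; exact ⟨(l p).2, (hlrmem p (l p)).2 (Or.inl rfl)⟩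
        · rw [h3]; exact ⟨(r p).2, (hlrmem p (r p)).2 (Or.inr rfl)⟩
    rw [this, sum_pair]
    intro h; exact hlrne p (Subtype.ext h)
  have H1 : ∀ h : {e // e ∈ C} → ZMod 2, ∑ p, (h (l p) + h (r p)) = 0 := by
    intro h
    obtain ⟨h', hh'⟩ : ∃ h' : E → ZMod 2, ∀ e : {e // e ∈ C}, h' e.1 = h e :=
      ⟨fun e => if he : e ∈ C then h ⟨e, he⟩ else 0, fun e => by simp [e.2]⟩
    have h1 : ∀ p : {v // dg G C v = 2}, h (l p) + h (r p) =
        ∑ e ∈ C, (if p.1 ∈ G.ends e then h' e else 0) := by
      intro p; rw [hsum, hh', hh']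
    simp only [h1]
    have hst : ∑ v ∈ univ.filter (fun v => dg G C v = 2),
        ∑ e ∈ C, (if v ∈ G.ends e then h' e else 0) =
        ∑ p : {v // dg G C v = 2}, ∑ e ∈ C, (if p.1 ∈ G.ends e then h' e else 0) :=
      Finset.sum_subtype _ (by simp) _
    refine hst.symm.trans (Eq.trans ?_ (half_edges G C h'))
    refine sum_subset (filter_subset _ _) fun v _ hv => ?_
    have hv0 : dg G C v = 0 := by
      rcases hC.2.1 v with h2 | h2
      · exact h2
      · exact absurd (mem_filter.2 ⟨mem_univ v, h2⟩ : v ∈ univ.filter (fun v => dg G C v = 2)) hv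
    unfold dg at hv0
    rw [card_eq_zero] at hv0
    rw [← sum_filter, hv0, sum_empty]
  have H2 : ∀ p q : {v // dg G C v = 2}, ∃ b : {e // e ∈ C} → ZMod 2, ∀ x,
      b (l x) + b (r x) = (if x = p then 1 else 0) + (if x = q then 1 else 0) := by
    intro p q
    obtain ⟨b, hb⟩ := potential G C hC p.1 q.1 p.2 q.2
    refine ⟨fun e => b e.1, fun x => ?_⟩
    rw [← hsum x b, hb x.1]
    simp only [Subtype.ext_iff]
  -- ends of chords
  have hch : ∀ i : {e // e ∈ H ∧ e ∉ C ∧ ∀ v ∈ G.ends e, dg G C v = 2}, ∃ a b : {v // dg G C v = 2},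
      a ≠ b ∧ G.ends i.1 = s(a.1, b.1) := by
    intro i
    obtain ⟨a, b, hab, h⟩ := exists_ends G i.1
    refine ⟨⟨a, i.2.2.2 a (by rw [h]; simp)⟩, ⟨b, i.2.2.2 b (by rw [h]; simp)⟩, ?_, h⟩
    intro h'; exact hab (congrArg Subtype.val h')
  choose ca cb hcab hcends using hch
  -- legs of outside vertices
  have hleg : ∀ u : {v // dg G C v = 0 ∧ dg G H v = 3}, ∃ f : Fin 3 → E, Function.Injective f ∧
      ∀ e, (e ∈ H ∧ u.1 ∈ G.ends e) ↔ ∃ k, f k = e := by
    intro u
    have h1 := u.2.2
    unfold dg at h1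
    obtain ⟨x, y, z, hxy, hxz, hyz, h2⟩ := card_eq_three.1 h1
    refine ⟨![x, y, z], ?_, ?_⟩
    · intro i j hij
      fin_cases i <;> fin_cases j <;> simp_all
    · intro e
      rw [← mem_filter (p := fun e => u.1 ∈ G.ends e), h2]
      constructor
      · intro h
        simp only [mem_insert, mem_singleton] at h
        rcases h with h | h | h
        · exact ⟨0, h.symm⟩
        · exact ⟨1, h.symm⟩
        · exact ⟨2, h.symm⟩
      · rintro ⟨k, hk⟩
        fin_cases k <;> simp_all
  choose lg hlginj hlgmem using hleg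
  have hlg1 : ∀ u k, lg u k ∈ H ∧ u.1 ∈ G.ends (lg u k) := fun u k => (hlgmem u _).2 ⟨k, rfl⟩
  have hoth : ∀ (u : {v // dg G C v = 0 ∧ dg G H v = 3}) (k : Fin 3),
      ∃ w : {v // dg G C v = 2}, G.ends (lg u k) = s(u.1, w.1) := by
    intro u k
    obtain ⟨v, hv, hv2⟩ := hdom _ (hlg1 u k).1
    have hne : u.1 ≠ v := by
      intro h
      have := u.2.1
      rw [h, hv2] at this
      exact absurd this (by norm_num)
    exact ⟨⟨v, hv2⟩, (Sym2.mem_and_mem_iff hne).1 ⟨(hlg1 u k).2, hv⟩⟩
  choose w hw using hoth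
  have hlgC : ∀ u k, lg u k ∉ C := by
    intro u k h
    have h1 := u.2.1
    unfold dg at h1
    rw [card_eq_zero] at h1
    have : lg u k ∈ C.filter fun e => u.1 ∈ G.ends e := mem_filter.2 ⟨h, (hlg1 u k).2⟩
    rw [h1] at this
    exact absurd this (notMem_empty _)
  -- positions
  obtain ⟨pos, hpos1, hpos2, hpos3⟩ : ∃ pos : Qx {e // e ∈ H ∧ e ∉ C ∧ ∀ v ∈ G.ends e, dg G C v = 2}
      {v // dg G C v = 0 ∧ dg G H v = 3} → {v // dg G C v = 2},
      (∀ i, pos (Sum.inl (i, 0)) = ca i) ∧ (∀ i, pos (Sum.inl (i, 1)) = cb i) ∧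
      (∀ u k, pos (Sum.inr (u, k)) = w u k) := by
    refine ⟨fun q => match q with
      | Sum.inl (i, k) => if k = 0 then ca i else cb i
      | Sum.inr (u, k) => w u k, ?_, ?_, ?_⟩
    · intro i; simp
    · intro i; simp
    · intro u k; rfl
  obtain ⟨eq, heq1, heq2⟩ : ∃ eq : Qx {e // e ∈ H ∧ e ∉ C ∧ ∀ v ∈ G.ends e, dg G C v = 2}
      {v // dg G C v = 0 ∧ dg G H v = 3} → E,
      (∀ i k, eq (Sum.inl (i, k)) = i.1) ∧ (∀ u k, eq (Sum.inr (u, k)) = lg u k) :=
    ⟨fun q => match q with
      | Sum.inl (i, _) => i.1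
      | Sum.inr (u, k) => lg u k, fun _ _ => rfl, fun _ _ => rfl⟩
  have hposI : ∀ i k, pos (Sum.inl (i, k)) = ca i ∨ pos (Sum.inl (i, k)) = cb i := by
    intro i k
    fin_cases k
    · exact Or.inl (hpos1 i)
    · exact Or.inr (hpos2 i)
  have heqprop : ∀ q, eq q ∈ H ∧ eq q ∉ C ∧ (pos q).1 ∈ G.ends (eq q) := by
    rintro (⟨i, k⟩ | ⟨u, k⟩)
    · rw [heq1]
      refine ⟨i.2.1, i.2.2.1, ?_⟩
      rw [hcends]
      rcases hposI i k with h | h <;> rw [h] <;> simp
    · rw [heq2, hpos3]
      refine ⟨(hlg1 u k).1, hlgC u k, ?_⟩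
      rw [hw]; simp
  -- uniqueness of the third edge
  have huniq : ∀ (p : {v // dg G C v = 2}) (e e' : E), e ∈ H → e ∉ C → p.1 ∈ G.ends e →
      e' ∈ H → e' ∉ C → p.1 ∈ G.ends e' → e = e' := by
    intro p e e' h1 h2 h3 h1' h2' h3'
    by_contra hne
    have hsub : ({(l p).1, (r p).1, e, e'} : Finset E) ⊆ H.filter fun e => p.1 ∈ G.ends e := by
      intro x hx
      simp only [mem_insert, mem_singleton] at hx
      rw [mem_filter]
      rcases hx with h | h | h | h
      · rw [h]; exact ⟨hCH (l p).2, (hlrmem p (l p)).2 (Or.inl rfl)⟩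
      · rw [h]; exact ⟨hCH (r p).2, (hlrmem p (r p)).2 (Or.inr rfl)⟩
      · rw [h]; exact ⟨h1, h3⟩
      · rw [h]; exact ⟨h1', h3'⟩
    have hc := card_le_card hsub
    have hl := (l p).2
    have hr := (r p).2
    have hlr' : (l p).1 ≠ (r p).1 := fun h => hlrne p (Subtype.ext h)
    rw [card_insert_of_notMem, card_insert_of_notMem, card_pair hne] at hc
    · have := hon p.1 p.2
      unfold dg at this
      omega
    · simp only [mem_insert, mem_singleton, not_or]
      exact ⟨fun h => h2 (h ▸ hr), fun h => h2' (h ▸ hr)⟩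
    · simp only [mem_insert, mem_singleton, not_or]
      exact ⟨hlr', fun h => h2 (h ▸ hl), fun h => h2' (h ▸ hl)⟩
  have hposinj : Function.Injective pos := by
    intro q q' hqq
    have he : eq q = eq q' := by
      have h1 := heqprop q
      have h2 := heqprop q'
      exact huniq (pos q) _ _ h1.1 h1.2.1 h1.2.2 h2.1 h2.2.1 (by rw [hqq]; exact h2.2.2)
    rcases q with ⟨i, k⟩ | ⟨u, k⟩ <;> rcases q' with ⟨i', k'⟩ | ⟨u', k'⟩
    · rw [heq1, heq1] at he
      have hi : i = i' := Subtype.ext he
      subst hi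
      have hkk : k = k' := by
        fin_cases k <;> fin_cases k'
        · rfl
        · have : ca i = cb i := by rw [← hpos1 i, ← hpos2 i]; exact hqq
          exact absurd this (hcab i)
        · have : cb i = ca i := by rw [← hpos1 i, ← hpos2 i]; exact hqq
          exact absurd this.symm (hcab i)
        · rfl
      rw [hkk]
    · rw [heq1, heq2] at he
      have h1 := i.2.2.2 u'.1 (by rw [he]; exact (hlg1 u' k').2)
      rw [u'.2.1] at h1
      exact absurd h1 (by norm_num)
    · rw [heq1, heq2] at he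
      have h1 := i'.2.2.2 u.1 (by rw [← he]; exact (hlg1 u k).2)
      rw [u.2.1] at h1
      exact absurd h1 (by norm_num)
    · rw [heq2, heq2] at he
      have hu : u.1 = u'.1 := by
        have h1 : u'.1 ∈ G.ends (lg u k) := by rw [he]; exact (hlg1 u' k').2
        rw [hw, Sym2.mem_iff] at h1
        rcases h1 with h1 | h1
        · exact h1.symm
        · have h2 := u'.2.1
          rw [h1, (w u k).2] at h2
          exact absurd h2 (by norm_num)
      have hu' : u = u' := Subtype.ext hu
      subst hu'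
      rw [hlginj u he]
  have hcover : ∀ (p : {v // dg G C v = 2}) (e : E), e ∈ H → e ∉ C → p.1 ∈ G.ends e →
      ∃ q, pos q = p ∧ eq q = e := by
    intro p e h1 h2 h3
    by_cases hall : ∀ v ∈ G.ends e, dg G C v = 2
    · have h4 := h3
      rw [hcends ⟨e, h1, h2, hall⟩, Sym2.mem_iff] at h4
      rcases h4 with h4 | h4
      · exact ⟨Sum.inl (⟨e, h1, h2, hall⟩, 0), by rw [hpos1]; exact Subtype.ext h4.symm, heq1 _ _⟩
      · exact ⟨Sum.inl (⟨e, h1, h2, hall⟩, 1), by rw [hpos2]; exact Subtype.ext h4.symm, heq1 _ _⟩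
    · push Not at hall
      obtain ⟨u, hu, hu2⟩ := hall
      have hu0 : dg G C u = 0 := (hC.2.1 u).resolve_right hu2
      have hu3 : dg G H u = 3 := by
        rcases hoff u hu0 with h | h
        · unfold dg at h
          rw [card_eq_zero] at h
          have : e ∈ H.filter fun e => u ∈ G.ends e := mem_filter.2 ⟨h1, hu⟩
          rw [h] at this
          exact absurd this (notMem_empty _)
        · exact h
      obtain ⟨k, hk⟩ := (hlgmem ⟨u, hu0, hu3⟩ e).1 ⟨h1, hu⟩
      refine ⟨Sum.inr (⟨u, hu0, hu3⟩, k), ?_, by rw [heq2]; exact hk⟩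
      rw [hpos3]
      have h4 := h3
      rw [← hk, hw, Sym2.mem_iff] at h4
      rcases h4 with h4 | h4
      · have := p.2
        rw [h4] at this
        change dg G C u = 2 at this
        omega
      · exact Subtype.ext h4.symm
  obtain ⟨F, hF1, hF2, col, hprop, hfree, hcI, hcR⟩ := core l r H1 H2 pos hposinj
  -- membership of a colour
  obtain ⟨pr, hpr⟩ : ∃ pr : {v // dg G C v = 2} → F → Prop,
      ∀ p c, pr p c ↔ (col (l p) = c ∨ col (r p) = c) := ⟨_, fun _ _ => Iff.rfl⟩
  have hcovered : ∀ p : {v // dg G C v = 2}, dg G H p.1 = 3 → ∃ q, pos q = p := by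
    intro p hp
    have hsub : ({(l p).1, (r p).1} : Finset E) ⊆ H.filter fun e => p.1 ∈ G.ends e := by
      intro x hx
      simp only [mem_insert, mem_singleton] at hx
      rw [mem_filter]
      rcases hx with h | h
      · rw [h]; exact ⟨hCH (l p).2, (hlrmem p (l p)).2 (Or.inl rfl)⟩
      · rw [h]; exact ⟨hCH (r p).2, (hlrmem p (r p)).2 (Or.inr rfl)⟩
    have hex : ∃ e ∈ H.filter fun e => p.1 ∈ G.ends e, e ∉ ({(l p).1, (r p).1} : Finset E) := by
      by_contra hcon
      push Not at hcon
      have := card_le_card (show (H.filter fun e => p.1 ∈ G.ends e) ⊆ {(l p).1, (r p).1} from hcon)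
      have h2 : ({(l p).1, (r p).1} : Finset E).card ≤ 2 := card_le_two
      unfold dg at hp
      omega
    obtain ⟨e, he, he2⟩ := hex
    rw [mem_filter] at he
    have heC : e ∉ C := by
      intro h
      apply he2
      rcases (hlrmem p ⟨e, h⟩).1 he.2 with h3 | h3
      · rw [← h3]; simp
      · rw [← h3]; simp
    obtain ⟨q, hq, _⟩ := hcover p e he.1 heC he.2
    exact ⟨q, hq⟩
  -- both ends of a chord see the same colours
  have hbr : ∀ (q : Qx {e // e ∈ H ∧ e ∉ C ∧ ∀ v ∈ G.ends e, dg G C v = 2}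
      {v // dg G C v = 0 ∧ dg G H v = 3}) (c : F),
      ((if col (l (pos q)) = c then 1 else 0) + (if col (r (pos q)) = c then 1 else 0)) =
        if pr (pos q) c then 1 else 0 := by
    intro q c
    have h1 := hprop q
    rw [if_congr (hpr (pos q) c) rfl rfl]
    by_cases h2 : col (l (pos q)) = c
    · have h3 : ¬ col (r (pos q)) = c := fun h => h1 (h2.trans h.symm)
      simp [h2, h3]
    · by_cases h3 : col (r (pos q)) = c <;> simp [h2, h3]
  have hchord : ∀ i c, pr (ca i) c ↔ pr (cb i) c := by
    intro i c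
    have h1 := hcI i c
    rw [Fin.sum_univ_two, hbr, hbr, hpos1, hpos2] at h1
    by_cases h2 : pr (ca i) c <;> by_cases h3 : pr (cb i) c <;> simp [h2, h3] at h1 ⊢
  -- colour classes
  obtain ⟨D, hD⟩ : ∃ D : F → Finset E, ∀ c e, e ∈ D c ↔ e ∈ H ∧
      ((∃ he : e ∈ C, col ⟨e, he⟩ = c) ∨ (e ∉ C ∧ ∃ p : {v // dg G C v = 2}, p.1 ∈ G.ends e ∧ pr p c)) :=
    ⟨fun c => H.filter fun e => ((∃ he : e ∈ C, col ⟨e, he⟩ = c) ∨
      (e ∉ C ∧ ∃ p : {v // dg G C v = 2}, p.1 ∈ G.ends e ∧ pr p c)), fun c e => mem_filter⟩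
  have hDC : ∀ c (e : {e // e ∈ C}), e.1 ∈ D c ↔ col e = c := by
    intro c e
    rw [hD]
    constructor
    · rintro ⟨_, ⟨_, h⟩ | ⟨h, _⟩⟩
      · exact h
      · exact absurd e.2 h
    · intro h; exact ⟨hCH e.2, Or.inl ⟨e.2, h⟩⟩
  have hDq : ∀ c q, eq q ∈ D c ↔ pr (pos q) c := by
    intro c q
    have hq := heqprop q
    rw [hD]
    constructor
    · rintro ⟨_, ⟨h, _⟩ | ⟨_, p, hp, hpc⟩⟩
      · exact absurd h hq.2.1
      · rcases q with ⟨i, k⟩ | ⟨u, k⟩
        · rw [heq1, hcends, Sym2.mem_iff] at hp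
          have h1 : pr (ca i) c := by
            rcases hp with hp | hp
            · rw [← Subtype.ext hp]; exact hpc
            · rw [hchord, ← Subtype.ext hp]; exact hpc
          rcases hposI i k with h | h
          · rw [h]; exact h1
          · rw [h, ← hchord]; exact h1
        · rw [heq2, hw, Sym2.mem_iff] at hp
          rw [hpos3]
          rcases hp with hp | hp
          · have := p.2
            rw [hp] at this
            have h3 := u.2.1
            rw [this] at h3
            exact absurd h3 (by norm_num)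
          · rw [← Subtype.ext hp]; exact hpc
    · intro h
      exact ⟨hq.1, Or.inr ⟨hq.2.1, pos q, hq.2.2, h⟩⟩
  -- degrees
  have hdeg : ∀ c v, dg G (D c) v = 0 ∨ dg G (D c) v = 2 := by
    intro c v
    rcases hC.2.1 v with h0 | hv2
    · rcases hoff v h0 with h1 | h1
      · left
        unfold dg at h1 ⊢
        rw [card_eq_zero] at h1 ⊢
        rw [eq_empty_iff_forall_notMem]
        intro e he
        rw [mem_filter, hD] at he
        have : e ∈ H.filter fun e => v ∈ G.ends e := mem_filter.2 ⟨he.1.1, he.2⟩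
        rw [h1] at this
        exact absurd this (notMem_empty _)
      · have hcard : dg G (D c) v = (univ.filter fun k : Fin 3 => pr (w ⟨v, h0, h1⟩ k) c).card := by
          unfold dg
          rw [← card_image_of_injective _ (hlginj ⟨v, h0, h1⟩)]
          congr 1
          ext e
          rw [mem_filter, mem_image]
          constructor
          · rintro ⟨h2, h3⟩
            obtain ⟨k, hk⟩ := (hlgmem ⟨v, h0, h1⟩ e).1 ⟨((hD c e).1 h2).1, h3⟩
            refine ⟨k, mem_filter.2 ⟨mem_univ _, ?_⟩, hk⟩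
            have := hDq c (Sum.inr (⟨v, h0, h1⟩, k))
            rw [heq2, hpos3, hk] at this
            exact this.1 h2
          · rintro ⟨k, hk, rfl⟩
            rw [mem_filter] at hk
            refine ⟨?_, (hlg1 ⟨v, h0, h1⟩ k).2⟩
            have := hDq c (Sum.inr (⟨v, h0, h1⟩, k))
            rw [heq2, hpos3] at this
            exact this.2 hk.2
        have hev := hcR ⟨v, h0, h1⟩ c
        simp only [hbr] at hev
        simp only [hpos3] at hev
        rw [sum_boole] at hev
        have hle : (univ.filter fun k : Fin 3 => pr (w ⟨v, h0, h1⟩ k) c).card ≤ 3 :=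
          (card_filter_le _ _).trans (by simp)
        rw [hcard]
        simp only [Nat.cast_id] at hev
        rw [Nat.even_iff] at hev
        omega
    · obtain ⟨p, hp⟩ : ∃ p : {v // dg G C v = 2}, p.1 = v := ⟨⟨v, hv2⟩, rfl⟩
      have hCp : ∀ e, e ∈ C → v ∈ G.ends e → e = (l p).1 ∨ e = (r p).1 := by
        intro e he hve
        rcases (hlrmem p ⟨e, he⟩).1 (by rw [hp]; exact hve) with h | h
        · exact Or.inl (congrArg Subtype.val h)
        · exact Or.inr (congrArg Subtype.val h)
      have hlv : v ∈ G.ends (l p).1 := by rw [← hp]; exact (hlrmem p (l p)).2 (Or.inl rfl)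
      have hrv : v ∈ G.ends (r p).1 := by rw [← hp]; exact (hlrmem p (r p)).2 (Or.inr rfl)
      have hlr' : (l p).1 ≠ (r p).1 := fun h => hlrne p (Subtype.ext h)
      by_cases hcov : ∃ q, pos q = p
      · obtain ⟨q, hq⟩ := hcov
        have hprq := hprop q
        rw [hq] at hprq
        have h3 := heqprop q
        rw [hq, hp] at h3
        have hset : ∀ e, (e ∈ D c ∧ v ∈ G.ends e) ↔
            (e = (l p).1 ∧ col (l p) = c) ∨ (e = (r p).1 ∧ col (r p) = c) ∨ (e = eq q ∧ pr p c) := by
          intro e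
          constructor
          · rintro ⟨h4, h5⟩
            by_cases heC : e ∈ C
            · rcases hCp e heC h5 with h | h
              · left; subst h; exact ⟨rfl, (hDC c (l p)).1 h4⟩
              · right; left; subst h; exact ⟨rfl, (hDC c (r p)).1 h4⟩
            · right; right
              have h6 : e = eq q := huniq p e (eq q) ((hD c e).1 h4).1 heC (by rw [hp]; exact h5)
                h3.1 h3.2.1 (by rw [hp]; exact h3.2.2)
              subst h6
              refine ⟨rfl, ?_⟩
              rw [hDq, hq] at h4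
              exact h4
          · rintro (⟨h4, h5⟩ | ⟨h4, h5⟩ | ⟨h4, h5⟩)
            · rw [h4]; exact ⟨(hDC c (l p)).2 h5, hlv⟩
            · rw [h4]; exact ⟨(hDC c (r p)).2 h5, hrv⟩
            · rw [h4]
              refine ⟨?_, h3.2.2⟩
              rw [hDq, hq]; exact h5
        unfold dg
        by_cases c1 : col (l p) = c
        · have c2 : ¬ col (r p) = c := fun h => hprq (c1.trans h.symm)
          have c3 : pr p c := (hpr p c).2 (Or.inl c1)
          right
          have : (D c).filter (fun e => v ∈ G.ends e) = {(l p).1, eq q} := by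
            ext e
            rw [mem_filter, hset, mem_insert, mem_singleton]
            simp [c1, c2, c3]
          rw [this, card_pair]
          intro h; exact h3.2.1 (h ▸ (l p).2)
        · by_cases c2 : col (r p) = c
          · have c3 : pr p c := (hpr p c).2 (Or.inr c2)
            right
            have : (D c).filter (fun e => v ∈ G.ends e) = {(r p).1, eq q} := by
              ext e
              rw [mem_filter, hset, mem_insert, mem_singleton]
              simp [c1, c2, c3]
            rw [this, card_pair]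
            intro h; exact h3.2.1 (h ▸ (r p).2)
          · left
            have c3 : ¬ pr p c := fun h => ((hpr p c).1 h).elim c1 c2
            rw [card_eq_zero, eq_empty_iff_forall_notMem]
            intro e
            rw [mem_filter, hset]
            simp [c1, c2, c3]
      · have hno : ∀ e, e ∈ H → v ∈ G.ends e → e ∈ C := by
          intro e h1 h2
          by_contra h3
          obtain ⟨q, hq, _⟩ := hcover p e h1 h3 (by rw [hp]; exact h2)
          exact hcov ⟨q, hq⟩
        have heqc : col (l p) = col (r p) := hfree p (by rintro ⟨q, hq⟩; exact hcov ⟨q, hq⟩)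
        have hset : ∀ e, (e ∈ D c ∧ v ∈ G.ends e) ↔
            (e = (l p).1 ∧ col (l p) = c) ∨ (e = (r p).1 ∧ col (r p) = c) := by
          intro e
          constructor
          · rintro ⟨h4, h5⟩
            have heC := hno e ((hD c e).1 h4).1 h5
            rcases hCp e heC h5 with h | h
            · left; subst h; exact ⟨rfl, (hDC c (l p)).1 h4⟩
            · right; subst h; exact ⟨rfl, (hDC c (r p)).1 h4⟩
          · rintro (⟨h4, h5⟩ | ⟨h4, h5⟩)
            · rw [h4]; exact ⟨(hDC c (l p)).2 h5, hlv⟩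
            · rw [h4]; exact ⟨(hDC c (r p)).2 h5, hrv⟩
        unfold dg
        by_cases c1 : col (l p) = c
        · right
          have c2 : col (r p) = c := heqc ▸ c1
          have : (D c).filter (fun e => v ∈ G.ends e) = {(l p).1, (r p).1} := by
            ext e
            rw [mem_filter, hset, mem_insert, mem_singleton]
            simp [c1, c2]
          rw [this, card_pair hlr']
        · left
          have c2 : ¬ col (r p) = c := fun h => c1 (heqc.trans h)
          rw [card_eq_zero, eq_empty_iff_forall_notMem]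
          intro e
          rw [mem_filter, hset]
          simp [c1, c2]
  -- decompose
  have hdec := fun c => decompose G (D c).card (D c) le_rfl (hdeg c)
  choose M hM1 hM2 using hdec
  refine ⟨C ::ₘ ∑ c, M c, ?_, ?_, Multiset.mem_cons_self _ _⟩
  · intro X hX
    rcases Multiset.mem_cons.1 hX with h | h
    · rw [h]; exact hC
    · rw [Multiset.mem_sum] at h
      obtain ⟨c, _, h⟩ := h
      exact hM1 c X h
  · intro e
    have hcs : (∑ c, M c).countP (e ∈ ·) = ∑ c, (M c).countP (e ∈ ·) := countP_sum _ _ _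
    rw [Multiset.countP_cons, hcs]
    simp only [hM2]
    rw [sum_boole]
    by_cases heC : e ∈ C
    · have : (univ.filter fun c => e ∈ D c) = {col ⟨e, heC⟩} := by
        ext c
        rw [mem_filter, mem_singleton, hDC c ⟨e, heC⟩]
        simp [eq_comm]
      rw [this, card_singleton, if_pos heC, if_pos (hCH heC)]
      norm_num
    · by_cases heH : e ∈ H
      · obtain ⟨v, hv, hv2⟩ := hdom e heH
        obtain ⟨q, hq, hq2⟩ := hcover ⟨v, hv2⟩ e heH heC hv
        have : (univ.filter fun c => e ∈ D c) = {col (l (pos q)), col (r (pos q))} := by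
          ext c
          rw [mem_filter, mem_insert, mem_singleton, ← hq2, hDq, hpr]
          simp [eq_comm]
        rw [this, card_pair (hprop q), if_neg heC, if_pos heH]
        norm_num
      · have : (univ.filter fun c => e ∈ D c) = ∅ := by
          rw [eq_empty_iff_forall_notMem]
          intro c hc
          rw [mem_filter, hD] at hc
          exact heH hc.2.1
        rw [this, card_empty, if_neg heC, if_neg heH]
        norm_num


end Pool.Agent.Helper347.Sab
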