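import Pool.Agent.Helper347.SabGraph

set_option autoImplicit false
set_option linter.unusedSectionVars false
set_option linter.unusedSimpArgs false
set_option linter.unnecessarySeqFocus false
set_option linter.unusedVariables false

open Finset

namespace Pool.Agent.Helper347.Sab


variable {V E : Type} [Fintype V] [DecidableEq V] [Fintype E] [DecidableEq E]

/-- even edge set -/
def Ev (G : MGraph V E) (X : Finset E) : Prop := ∀ v, Even (dg G X v)

theorem filter_symmDiff (G : MGraph V E) (X Y : Finset E) (v : V) :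
    (symmDiff X Y).filter (fun e => v ∈ G.ends e) =
      symmDiff (X.filter fun e => v ∈ G.ends e) (Y.filter fun e => v ∈ G.ends e) := by
  ext e
  simp only [mem_filter, mem_symmDiff]
  tauto

theorem dg_symmDiff (G : MGraph V E) (X Y : Finset E) (v : V) :
    dg G (symmDiff X Y) v + 2 * dg G (X ∩ Y) v = dg G X v + dg G Y v := by
  unfold dg
  rw [filter_symmDiff]
  have h1 : (X ∩ Y).filter (fun e => v ∈ G.ends e) =
      (X.filter fun e => v ∈ G.ends e) ∩ (Y.filter fun e => v ∈ G.ends e) := by
    ext e; simp only [mem_filter, mem_inter]; tauto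
  rw [h1]
  generalize X.filter (fun e => v ∈ G.ends e) = A
  generalize Y.filter (fun e => v ∈ G.ends e) = B
  have h2 : (symmDiff A B).card = (A \ B).card + (B \ A).card := by
    rw [symmDiff_def, sup_eq_union, card_union_of_disjoint]
    exact disjoint_sdiff_sdiff
  have h3 := card_sdiff_add_card_inter A B
  have h4 := card_sdiff_add_card_inter B A
  rw [inter_comm B A] at h4
  omega

theorem ev_symmDiff {G : MGraph V E} {X Y : Finset E} (hX : Ev G X) (hY : Ev G Y) :
    Ev G (symmDiff X Y) := by
  intro v
  have h1 := dg_symmDiff G X Y v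
  have h2 := hX v
  have h3 := hY v
  rw [Nat.even_iff] at *
  omega

/-- an even subset of a circuit is empty or everything -/
theorem circuit_minimal (G : MGraph V E) (C X : Finset E) (hC : IsCircuit G C) (hX : Ev G X)
    (hsub : X ⊆ C) (hne : X.Nonempty) : X = C := by
  apply Subset.antisymm hsub
  obtain ⟨e0, he0⟩ := hne
  intro f hf
  have hcl : ∀ g, Relation.ReflTransGen (fun a b => b ∈ C ∧ Touch G a b) e0 g → g ∈ X := by
    intro g hg
    induction hg with
    | refl => exact he0
    | tail h1 h2 ih =>
      rename_i a b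
      obtain ⟨v, hva, hvb⟩ := h2.2
      by_contra hb
      -- at v, X has degree one
      have h3 : dg G X v < dg G C v := by
        unfold dg
        apply card_lt_card
        refine ⟨?_, ?_⟩
        · intro x hx
          rw [mem_filter] at hx ⊢
          exact ⟨hsub hx.1, hx.2⟩
        · intro hcon
          have : b ∈ X.filter fun e => v ∈ G.ends e := hcon (mem_filter.2 ⟨h2.1, hvb⟩)
          exact hb (mem_filter.1 this).1
      have h4 : 0 < dg G X v := by
        unfold dg
        rw [card_pos]
        exact ⟨a, mem_filter.2 ⟨ih, hva⟩⟩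
      have h5 := hC.2.1 v
      have h6 := hX v
      rw [Nat.even_iff] at h6
      omega
  exact hcl f (hC.2.2 e0 (hsub he0) f hf)

theorem dg_pos_of_mem {G : MGraph V E} {X : Finset E} {e : E} {v : V} (he : e ∈ X)
    (hv : v ∈ G.ends e) : 0 < dg G X v := by
  unfold dg
  rw [card_pos]
  exact ⟨e, mem_filter.2 ⟨he, hv⟩⟩

theorem exists_mem_of_dg_pos {G : MGraph V E} {X : Finset E} {v : V} (h : 0 < dg G X v) :
    ∃ e ∈ X, v ∈ G.ends e := by
  unfold dg at h
  rw [card_pos] at h
  obtain ⟨e, he⟩ := h
  rw [mem_filter] at he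
  exact ⟨e, he.1, he.2⟩

theorem dg_mono {G : MGraph V E} {X Y : Finset E} (h : X ⊆ Y) (v : V) : dg G X v ≤ dg G Y v := by
  unfold dg
  exact card_le_card (filter_subset_filter _ h)

theorem dg_sdiff {G : MGraph V E} {X Y : Finset E} (h : Y ⊆ X) (v : V) :
    dg G (X \ Y) v + dg G Y v = dg G X v := by
  unfold dg
  have : (X \ Y).filter (fun e => v ∈ G.ends e) =
      (X.filter fun e => v ∈ G.ends e) \ (Y.filter fun e => v ∈ G.ends e) := by
    ext e; simp only [mem_filter, mem_sdiff]; tauto
  rw [this]
  exact card_sdiff_add_card_eq_card (filter_subset_filter _ h)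

/-- handshake: the number of odd vertices is even; here as a sum over F2 -/
theorem handshake (G : MGraph V E) (X : Finset E) : Even (∑ v, dg G X v) := by
  unfold dg
  simp only [card_filter]
  rw [sum_comm]
  refine even_sum _ fun e _ => ?_
  rw [← card_filter, card_ends]
  decide

/-- alternating subset of a circuit -/
theorem alternate (G : MGraph V E) (K C : Finset E) (hCK : C ⊆ K) (hC : IsCircuit G C)
    (hK : ∀ v, dg G K v = 0 ∨ dg G K v = 2 ∨ dg G K v = 3)
    (h3 : ∀ v, dg G K v = 3 → dg G C v = 2) (e : E) (he : e ∈ C) :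
    ∃ Z, Z ⊆ C ∧ (∀ v, Even (dg G Z v) ↔ dg G K v ≠ 3) ∧ e ∉ Z := by
  classical
  have h2 : ∀ z : ZMod 2, z + z = 0 := by decide
  obtain ⟨W, hW⟩ : ∃ W : Finset V, ∀ v, v ∈ W ↔ dg G K v = 3 :=
    ⟨univ.filter fun v => dg G K v = 3, fun v => by simp⟩
  have hWeven : Even W.card := by
    have h1 := handshake G K
    have h4 : ∀ v, (dg G K v : ZMod 2) = if v ∈ W then 1 else 0 := by
      intro v
      by_cases h : v ∈ W
      · rw [if_pos h, (hW v).1 h]; decide
      · rw [if_neg h]
        rcases hK v with h5 | h5 | h5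
        · rw [h5]; decide
        · rw [h5]; decide
        · exact absurd ((hW v).2 h5) h
    rw [← ZMod.natCast_eq_zero_iff_even] at h1 ⊢
    push_cast at h1
    simp only [h4] at h1
    rw [sum_boole] at h1
    have : (univ.filter fun v => v ∈ W) = W := by ext; simp
    rw [this] at h1
    exact h1
  obtain ⟨p0, hp0⟩ : ∃ p0, dg G C p0 = 2 := by
    obtain ⟨a, b, hab, h⟩ := exists_ends G e
    have ha : a ∈ G.ends e := by rw [h]; simp
    have := dg_pos_of_mem (G := G) he ha
    exact ⟨a, (hC.2.1 a).resolve_left (by omega)⟩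
  have hpot : ∀ w : V, ∃ b : E → ZMod 2, dg G K w = 3 → ∀ x,
      ∑ e ∈ C, (if x ∈ G.ends e then b e else 0) =
        (if x = w then 1 else 0) + (if x = p0 then 1 else 0) := by
    intro w
    by_cases hw : dg G K w = 3
    · obtain ⟨b, hb⟩ := potential G C hC w p0 (h3 w hw) hp0
      exact ⟨b, fun _ => hb⟩
    · exact ⟨0, fun h => absurd h hw⟩
  choose b hb using hpot
  obtain ⟨B, hB⟩ : ∃ B : E → ZMod 2, ∀ f, B f = ∑ w ∈ W, b w f := ⟨_, fun _ => rfl⟩
  have hBs : ∀ x, ∑ e ∈ C, (if x ∈ G.ends e then B e else 0) = if x ∈ W then 1 else 0 := by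
    intro x
    have h4 : ∀ f, (if x ∈ G.ends f then B f else 0) =
        ∑ w ∈ W, (if x ∈ G.ends f then b w f else 0) := by
      intro f
      by_cases h : x ∈ G.ends f
      · simp only [if_pos h, hB]
      · simp only [if_neg h, sum_const_zero]
    simp only [h4]
    rw [sum_comm]
    have h5 : ∀ w ∈ W, ∑ f ∈ C, (if x ∈ G.ends f then b w f else 0) =
        (if x = w then 1 else 0) + (if x = p0 then 1 else 0) := fun w hw => hb w ((hW w).1 hw) x
    rw [sum_congr rfl h5, sum_add_distrib, sum_ite_eq, sum_const, nsmul_eq_mul,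
      (ZMod.natCast_eq_zero_iff_even).2 hWeven, zero_mul, add_zero]
  have hdgB : ∀ Z ⊆ C, (∀ f ∈ C, f ∈ Z ↔ B f = 1) → ∀ v, (Even (dg G Z v) ↔ dg G K v ≠ 3) := by
    intro Z hZ hZB v
    have h4 : ((dg G Z v : ℕ) : ZMod 2) = ∑ f ∈ C, (if v ∈ G.ends f then B f else 0) := by
      unfold dg
      have h5 : (Z.filter fun e => v ∈ G.ends e) = C.filter fun f => v ∈ G.ends f ∧ B f = 1 := by
        ext f
        rw [mem_filter, mem_filter]
        constructor
        · rintro ⟨a1, a2⟩; exact ⟨hZ a1, a2, (hZB f (hZ a1)).1 a1⟩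
        · rintro ⟨a1, a2, a3⟩; exact ⟨(hZB f a1).2 a3, a2⟩
      rw [h5, card_filter]
      push_cast
      refine sum_congr rfl fun f _ => ?_
      by_cases h6 : v ∈ G.ends f
      · rcases z2_cases (B f) with h7 | h7 <;> simp [h6, h7]
      · simp [h6]
    rw [← ZMod.natCast_eq_zero_iff_even, h4, hBs]
    by_cases h : v ∈ W
    · have := (hW v).1 h
      simp [h, this]
    · have : dg G K v ≠ 3 := fun h' => h ((hW v).2 h')
      simp [h, this]
  rcases z2_cases (B e) with hBe | hBe
  · refine ⟨C.filter fun f => B f = 1, filter_subset _ _,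
      hdgB _ (filter_subset _ _) (fun f hf => by simp [hf]), ?_⟩
    rw [mem_filter, hBe]
    simp
  · have h6 := hdgB (C.filter fun f => B f = 1) (filter_subset _ _) (fun f hf => by simp [hf])
    refine ⟨C \ (C.filter fun f => B f = 1), sdiff_subset, ?_, ?_⟩
    · intro v
      rw [← h6 v]
      have h7 := dg_sdiff (G := G) (filter_subset (fun f => B f = 1) C) v
      have h8 := hC.2.1 v
      rw [Nat.even_iff, Nat.even_iff]
      omega
    · rw [mem_sdiff, mem_filter, hBe]
      simp [he]

/-- Smith's theorem: a circuit through all vertices of degree 3 is not the only one. -/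
theorem smith (G : MGraph V E) (K C : Finset E) (hCK : C ⊆ K) (hC : IsCircuit G C)
    (hK : ∀ v, dg G K v = 0 ∨ dg G K v = 2 ∨ dg G K v = 3)
    (h3 : ∀ v, dg G K v = 3 → dg G C v = 2) (hex : ∃ v, dg G K v = 3) :
    ∃ C', C' ⊆ K ∧ IsCircuit G C' ∧ (∀ v, dg G K v = 3 → dg G C' v = 2) ∧ C' ≠ C := by
  classical
  by_contra hcon
  push Not at hcon
  obtain ⟨e, heC⟩ := hC.1
  -- pairs of even sets covering K
  obtain ⟨S, hS⟩ : ∃ S : Finset (Finset E × Finset E), ∀ p, p ∈ S ↔
      (p.1 ⊆ K ∧ p.2 ⊆ K ∧ Ev G p.1 ∧ Ev G p.2 ∧ (∀ f ∈ K, f ∈ p.1 ∨ f ∈ p.2) ∧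
        e ∈ p.1 ∧ e ∉ p.2) := ⟨univ.filter fun p => (p.1 ⊆ K ∧ p.2 ⊆ K ∧ Ev G p.1 ∧ Ev G p.2 ∧
        (∀ f ∈ K, f ∈ p.1 ∨ f ∈ p.2) ∧ e ∈ p.1 ∧ e ∉ p.2), fun p => by simp⟩
  -- the set has even size
  have heven : ∑ p ∈ S, (1 : ZMod 2) = 0 := by
    refine Finset.sum_involution (fun p _ => (symmDiff p.1 p.2, p.2)) ?_ ?_ ?_ ?_
    · intro p _; decide
    · intro p hp _ heq
      have h1 : symmDiff p.1 p.2 = p.1 := congrArg Prod.fst heq
      have h2 : p.2 = ∅ := by
        have := symmDiff_eq_left.1 h1
        simpa using this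
      obtain ⟨v, hv⟩ := hex
      rw [hS] at hp
      have h4 : p.1 = K := by
        apply Subset.antisymm hp.1
        intro f hf
        rcases hp.2.2.2.2.1 f hf with h | h
        · exact h
        · rw [h2] at h; exact absurd h (notMem_empty _)
      have := hp.2.2.1 v
      rw [h4, hv] at this
      exact absurd this (by decide)
    · intro p hp
      rw [hS] at hp ⊢
      obtain ⟨a1, a2, a3, a4, a5, a6, a7⟩ := hp
      refine ⟨?_, a2, ev_symmDiff a3 a4, a4, ?_, ?_, a7⟩
      · intro f hf
        rw [mem_symmDiff] at hf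
        rcases hf with hf | hf
        · exact a1 hf.1
        · exact a2 hf.1
      · intro f hf
        by_cases h : f ∈ p.2
        · exact Or.inr h
        · left
          rw [mem_symmDiff]
          rcases a5 f hf with h' | h'
          · exact Or.inl ⟨h', h⟩
          · exact absurd h' h
      · rw [mem_symmDiff]; exact Or.inl ⟨a6, a7⟩
    · intro p _
      simp [symmDiff_symmDiff_cancel_right]
  -- fibres over the first component
  obtain ⟨T, hT⟩ : ∃ T : Finset E → Finset (Finset E), ∀ X Y, Y ∈ T X ↔
      (Y ⊆ K ∧ Ev G Y ∧ (∀ f ∈ K, f ∈ X ∨ f ∈ Y) ∧ e ∉ Y) :=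
    ⟨fun X => univ.filter fun Y => (Y ⊆ K ∧ Ev G Y ∧ (∀ f ∈ K, f ∈ X ∨ f ∈ Y) ∧ e ∉ Y),
      fun X Y => by simp⟩
  obtain ⟨B, hB⟩ : ∃ B : Finset (Finset E), ∀ X, X ∈ B ↔ (X ⊆ K ∧ Ev G X ∧ e ∈ X) :=
    ⟨univ.filter fun X => (X ⊆ K ∧ Ev G X ∧ e ∈ X), fun X => by simp⟩
  have hfib : ∑ p ∈ S, (1 : ZMod 2) = ∑ X ∈ B, ∑ Y ∈ T X, 1 := by
    rw [sum_sigma']
    refine sum_bij' (fun p _ => (⟨p.1, p.2⟩ : (_ : Finset E) × Finset E)) (fun p _ => (p.1, p.2))
      ?_ ?_ ?_ ?_ ?_
    · intro p hp
      rw [hS] at hp
      rw [mem_sigma, hB, hT]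
      exact ⟨⟨hp.1, hp.2.2.1, hp.2.2.2.2.2.1⟩, hp.2.1, hp.2.2.2.1, hp.2.2.2.2.1, hp.2.2.2.2.2.2⟩
    · intro p hp
      rw [mem_sigma, hB, hT] at hp
      rw [hS]
      exact ⟨hp.1.1, hp.2.1, hp.1.2.1, hp.2.2.1, hp.2.2.2.1, hp.1.2.2, hp.2.2.2.2⟩
    · intro p _; rfl
    · intro p _; rfl
    · intro p _; rfl
  -- the fibre over C has one element
  have hCB : C ∈ B := by
    rw [hB]
    refine ⟨hCK, fun v => ?_, heC⟩
    rcases hC.2.1 v with h | h <;> rw [h] <;> decide
  have hone : ∑ Y ∈ T C, (1 : ZMod 2) = 1 := by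
    obtain ⟨Y0, hY0⟩ : ∃ Y0, Y0 ∈ T C := by
      obtain ⟨Z, hZC, hZ, heZ⟩ := alternate G K C hCK hC hK h3 e heC
      refine ⟨(K \ C) ∪ Z, ?_⟩
      rw [hT]
      refine ⟨union_subset sdiff_subset (hZC.trans hCK), ?_, ?_, ?_⟩
      · intro v
        have h4 : dg G ((K \ C) ∪ Z) v = dg G (K \ C) v + dg G Z v := by
          unfold dg
          rw [filter_union, card_union_of_disjoint]
          rw [disjoint_left]
          intro x hx hx2
          rw [mem_filter, mem_sdiff] at hx
          rw [mem_filter] at hx2
          exact hx.1.2 (hZC hx2.1)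
        have h5 := dg_sdiff hCK (G := G) v
        have h6 := hZ v
        have h7 := hC.2.1 v
        have h8 := hK v
        have h9 := h3 v
        rw [Nat.even_iff] at *
        omega
      · intro f hf
        by_cases h : f ∈ C
        · exact Or.inl h
        · exact Or.inr (mem_union_left _ (mem_sdiff.2 ⟨hf, h⟩))
      · rw [mem_union, mem_sdiff]
        rintro (h | h)
        · exact h.2 heC
        · exact heZ h
    have hsing : T C = {Y0} := by
      ext Y
      rw [mem_singleton]
      constructor
      · intro hY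
        rw [hT] at hY hY0
        by_contra hne
        have hsd : symmDiff Y Y0 ⊆ C := by
          intro f hf
          rw [mem_symmDiff] at hf
          by_contra hfC
          rcases hf with hf | hf
          · rcases hY0.2.2.1 f (hY.1 hf.1) with h | h
            · exact hfC h
            · exact hf.2 h
          · rcases hY.2.2.1 f (hY0.1 hf.1) with h | h
            · exact hfC h
            · exact hf.2 h
        have hne2 : (symmDiff Y Y0).Nonempty := by
          rw [nonempty_iff_ne_empty]
          intro h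
          exact hne (symmDiff_eq_bot.1 h)
        have := circuit_minimal G C _ hC (ev_symmDiff hY.2.1 hY0.2.1) hsd hne2
        have he : e ∈ symmDiff Y Y0 := by rw [this]; exact heC
        rw [mem_symmDiff] at he
        rcases he with he | he
        · exact hY.2.2.2 he.1
        · exact hY0.2.2.2 he.1
      · intro h; rw [h]; exact hY0
    rw [hsing, sum_singleton]
  -- all other fibres are even
  have hother : ∀ X ∈ B, X ≠ C → ∑ Y ∈ T X, (1 : ZMod 2) = 0 := by
    intro X hX hXC
    rw [hB] at hX
    rcases (T X).eq_empty_or_nonempty with h0 | ⟨Y, hY⟩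
    · rw [h0, sum_empty]
    · rw [hT] at hY
      have hX02 : ∀ v, dg G X v = 0 ∨ dg G X v = 2 := by
        intro v
        have h4 := hX.2.1 v
        have h5 := dg_mono (G := G) hX.1 v
        have h6 := hK v
        rw [Nat.even_iff] at h4
        omega
      have hX3 : ∀ v, dg G K v = 3 → dg G X v = 2 := by
        intro v hv
        rcases hX02 v with h4 | h4
        · exfalso
          have h5 : dg G Y v = dg G K v := by
            unfold dg
            congr 1
            ext f
            rw [mem_filter, mem_filter]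
            constructor
            · rintro ⟨a1, a2⟩; exact ⟨hY.1 a1, a2⟩
            · rintro ⟨a1, a2⟩
              refine ⟨?_, a2⟩
              rcases hY.2.2.1 f a1 with h | h
              · have := dg_pos_of_mem (G := G) h a2
                omega
              · exact h
          have h6 := hY.2.1 v
          rw [h5, hv] at h6
          exact absurd h6 (by decide)
        · exact h4
      have hnc : ¬ IsCircuit G X := fun h => hXC (hcon X hX.1 h hX3)
      obtain ⟨X0, hX0, hX0c, hX0r⟩ := component G X hX02 ⟨e, hX.2.2⟩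
      have hX0ne : X0 ≠ X := fun h => hnc (h ▸ hX0c)
      obtain ⟨Z, hZX, hZe, hZev, hZne⟩ : ∃ Z, Z ⊆ X ∧ e ∉ Z ∧ Ev G Z ∧ Z.Nonempty := by
        by_cases he0 : e ∈ X0
        · refine ⟨X \ X0, sdiff_subset, fun h => (mem_sdiff.1 h).2 he0, fun v => ?_, ?_⟩
          · rcases hX0r v with h | h <;> rw [h] <;> decide
          · rw [nonempty_iff_ne_empty]
            intro h
            exact hX0ne (Subset.antisymm hX0 (sdiff_eq_empty_iff_subset.1 h))
        · refine ⟨X0, hX0, he0, fun v => ?_, hX0c.1⟩
          rcases hX0c.2.1 v with h | h <;> rw [h] <;> decide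
      refine Finset.sum_involution (fun Y _ => symmDiff Y Z) ?_ ?_ ?_ ?_
      · intro Y _; decide
      · intro Y _ _ heq
        have := symmDiff_eq_left.1 heq
        rw [this] at hZne
        exact absurd hZne (by simp)
      · intro Y hY
        rw [hT] at hY ⊢
        refine ⟨?_, ev_symmDiff hY.2.1 hZev, ?_, ?_⟩
        · intro f hf
          rw [mem_symmDiff] at hf
          rcases hf with hf | hf
          · exact hY.1 hf.1
          · exact hX.1 (hZX hf.1)
        · intro f hf
          by_cases h : f ∈ X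
          · exact Or.inl h
          · right
            rw [mem_symmDiff]
            rcases hY.2.2.1 f hf with h' | h'
            · exact absurd h' h
            · exact Or.inl ⟨h', fun hz => h (hZX hz)⟩
        · rw [mem_symmDiff]
          rintro (h | h)
          · exact hY.2.2.2 h.1
          · exact hZe h.1
      · intro Y _
        simp [symmDiff_symmDiff_cancel_right]
  rw [hfib, ← Finset.add_sum_erase _ _ hCB, hone,
    sum_eq_zero fun X hX => hother X (mem_of_mem_erase hX) (ne_of_mem_erase hX)] at heven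
  exact absurd heven (by decide)

/-- replacing a circuit by an extension -/
theorem exchange (G : MGraph V E) (H C C' : Finset E) (hCH : C ⊆ H) (hC'H : C' ⊆ H)
    (hC : IsCircuit G C) (hC' : IsCircuit G C') (hH : ∀ w, dg G H w ≤ 3)
    (hF : ∃ F : Multiset (Finset E), (∀ X ∈ F, IsCircuit G X) ∧
      (∀ e, F.countP (e ∈ ·) = if e ∈ H \ (C \ C') then 2 else 0) ∧ C' ∈ F) :
    ∃ F : Multiset (Finset E), (∀ X ∈ F, IsCircuit G X) ∧
      (∀ e, F.countP (e ∈ ·) = if e ∈ H then 2 else 0) ∧ C ∈ F := by
  obtain ⟨F', h1, h2, h3⟩ := hF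
  obtain ⟨F'', rfl⟩ := Multiset.exists_cons_of_mem h3
  have hsub : symmDiff C C' ⊆ H := by
    intro e he
    rw [mem_symmDiff] at he
    rcases he with he | he
    · exact hCH he.1
    · exact hC'H he.1
  have hev : Ev G (symmDiff C C') := by
    apply ev_symmDiff
    · intro v; rcases hC.2.1 v with h | h <;> rw [h] <;> decide
    · intro v; rcases hC'.2.1 v with h | h <;> rw [h] <;> decide
  have hdeg : ∀ v, dg G (symmDiff C C') v = 0 ∨ dg G (symmDiff C C') v = 2 := by
    intro v
    have a1 := hev v
    have a2 := dg_mono (G := G) hsub v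
    have a3 := hH v
    rw [Nat.even_iff] at a1
    omega
  obtain ⟨M, hM1, hM2⟩ := decompose G _ _ le_rfl hdeg
  refine ⟨C ::ₘ (F'' + M), ?_, ?_, Multiset.mem_cons_self _ _⟩
  · intro X hX
    rw [Multiset.mem_cons, Multiset.mem_add] at hX
    rcases hX with h | h | h
    · rw [h]; exact hC
    · exact h1 X (Multiset.mem_cons_of_mem h)
    · exact hM1 X h
  · intro e
    have h4 := h2 e
    rw [Multiset.countP_cons] at h4
    rw [Multiset.countP_cons, Multiset.countP_add, hM2]
    have h5 := @hCH e
    have h6 := @hC'H e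
    by_cases a1 : e ∈ H <;> by_cases a2 : e ∈ C <;> by_cases a3 : e ∈ C' <;>
      simp_all [mem_symmDiff] <;> omega

/-- the case of two adjacent vertices off the circuit -/
theorem adjacent_case (G : MGraph V E) (u v : V) (es : E) (hes : G.ends es = s(u, v))
    (n : ℕ) : ∀ H C : Finset E, H.card ≤ n → C ⊆ H → IsCircuit G C → es ∈ H →
    (∀ w, dg G H w = 0 ∨ dg G H w = 2 ∨ dg G H w = 3) → dg G H u = 3 → dg G H v = 3 →
    dg G C u = 0 → dg G C v = 0 → (∀ w, w ≠ u → w ≠ v → dg G H w ≠ 0 → dg G C w = 2) →
    (∃ e ∈ H, u ∈ G.ends e ∧ v ∉ G.ends e) →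
    ∃ F : Multiset (Finset E), (∀ X ∈ F, IsCircuit G X) ∧
      (∀ e, F.countP (e ∈ ·) = if e ∈ H then 2 else 0) ∧ C ∈ F := by
  have huv : u ≠ v := by
    intro h
    apply G.loopless es
    rw [hes, h]
    exact Sym2.mk_isDiag_iff.2 rfl
  induction n with
  | zero =>
    intro H C hcard hCH hC
    have h1 : H = ∅ := card_eq_zero.1 (Nat.le_zero.1 hcard)
    have h2 := hC.1.mono hCH
    rw [h1] at h2
    exact absurd h2 (by simp)
  | succ n ih =>
    intro H C hcard hCH hC hesH hdeg hu hv hCu hCv hon hleg
    have hnotC : ∀ e, u ∈ G.ends e ∨ v ∈ G.ends e → e ∉ C := by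
      intro e he heC
      rcases he with he | he
      · have := dg_pos_of_mem (G := G) heC he; omega
      · have := dg_pos_of_mem (G := G) heC he; omega
    have hesu : u ∈ G.ends es := by rw [hes]; simp
    have hesv : v ∈ G.ends es := by rw [hes]; simp
    have hesC : es ∉ C := hnotC es (Or.inl hesu)
    -- the graph without es
    obtain ⟨K, hK⟩ : ∃ K, K = H \ {es} := ⟨_, rfl⟩
    have hdgK : ∀ w, dg G K w + (if w = u ∨ w = v then 1 else 0) = dg G H w := by
      intro w
      have h1 := dg_sdiff (G := G) (singleton_subset_iff.2 hesH) w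
      rw [← hK] at h1
      rw [← h1]
      congr 1
      unfold dg
      rw [filter_singleton]
      by_cases hw : w ∈ G.ends es
      · have hw' := hw
        rw [hes, Sym2.mem_iff] at hw'
        rw [if_pos hw', if_pos hw, card_singleton]
      · have hw' := hw
        rw [hes, Sym2.mem_iff] at hw'
        rw [if_neg hw', if_neg hw, card_empty]
    have hKother : ∀ w, w ≠ u → w ≠ v → dg G K w = dg G H w := by
      intro w h1 h2
      have := hdgK w
      rw [if_neg (by tauto)] at this
      omega
    have hKu : dg G K u = 2 := by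
      have := hdgK u
      rw [if_pos (Or.inl rfl)] at this
      omega
    have hKv : dg G K v = 2 := by
      have := hdgK v
      rw [if_pos (Or.inr rfl)] at this
      omega
    have hCK : C ⊆ K := by
      intro e he
      rw [hK, mem_sdiff, mem_singleton]
      exact ⟨hCH he, fun h => hesC (h ▸ he)⟩
    have hKH : K ⊆ H := by rw [hK]; exact sdiff_subset
    have hKdeg : ∀ w, dg G K w = 0 ∨ dg G K w = 2 ∨ dg G K w = 3 := by
      intro w
      by_cases h1 : w = u
      · rw [h1]; exact Or.inr (Or.inl hKu)
      · by_cases h2 : w = v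
        · rw [h2]; exact Or.inr (Or.inl hKv)
        · rw [hKother w h1 h2]; exact hdeg w
    have hK3 : ∀ w, dg G K w = 3 → dg G C w = 2 := by
      intro w hw
      have h1 : w ≠ u := by rintro rfl; omega
      have h2 : w ≠ v := by rintro rfl; omega
      have h3 := hKother w h1 h2
      exact hon w h1 h2 (by omega)
    have hex : ∃ w, dg G K w = 3 := by
      obtain ⟨e, heH, heu, hev⟩ := hleg
      obtain ⟨a, b, hab, hend⟩ := exists_ends G e
      obtain ⟨w, hwe, hwu⟩ : ∃ w ∈ G.ends e, w ≠ u := by
        by_cases h : a = u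
        · exact ⟨b, by rw [hend]; simp, fun h' => hab (h.trans h'.symm)⟩
        · exact ⟨a, by rw [hend]; simp, h⟩
      have hwv : w ≠ v := by rintro rfl; exact hev hwe
      refine ⟨w, ?_⟩
      rw [hKother w hwu hwv]
      have h1 := dg_pos_of_mem (G := G) heH hwe
      have h2 := hon w hwu hwv (by omega)
      have h3 : dg G C w < dg G H w := by
        unfold dg
        apply card_lt_card
        refine ⟨filter_subset_filter _ hCH, fun hcon => ?_⟩
        have : e ∈ C.filter fun e => w ∈ G.ends e := hcon (mem_filter.2 ⟨heH, hwe⟩)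
        exact hnotC e (Or.inl heu) (mem_filter.1 this).1
      have h4 := hdeg w
      omega
    obtain ⟨C', hC'K, hC', hC'3, hne⟩ := smith G K C hCK hC hKdeg hK3 hex
    have hC'H : C' ⊆ H := hC'K.trans hKH
    have hevC : Ev G C := by intro v; rcases hC.2.1 v with h | h <;> rw [h] <;> decide
    have hdiff : (C \ C').Nonempty := by
      rw [nonempty_iff_ne_empty]
      intro h
      rw [sdiff_eq_empty_iff_subset] at h
      exact hne (circuit_minimal G C' C hC' hevC h hC.1).symm
    apply exchange G H C C' hCH hC'H hC hC' (fun w => by have := hdeg w; omega)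
    obtain ⟨H', hH'⟩ : ∃ H', H' = H \ (C \ C') := ⟨_, rfl⟩
    rw [← hH']
    have hsubC : C \ C' ⊆ H := sdiff_subset.trans hCH
    have hcardH' : H'.card ≤ n := by
      have h1 := card_sdiff_add_card_eq_card hsubC
      rw [← hH'] at h1
      have h2 := hdiff.card_pos
      omega
    have hC'H' : C' ⊆ H' := by
      intro e he
      rw [hH', mem_sdiff, mem_sdiff]
      exact ⟨hC'H he, fun h => h.2 he⟩
    have hd1 : ∀ w, dg G H' w + dg G (C \ C') w = dg G H w := by
      intro w; rw [hH']; exact dg_sdiff hsubC w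
    have hd2 : ∀ w, dg G (C \ C') w + dg G (C ∩ C') w = dg G C w := by
      intro w
      have h1 := dg_sdiff (G := G) (X := C) (Y := C ∩ C') inter_subset_left w
      rw [sdiff_inter_self_left] at h1
      exact h1
    have hH'u : dg G H' u = 3 := by
      have h1 := hd1 u
      have h2 := hd2 u
      omega
    have hH'v : dg G H' v = 3 := by
      have h1 := hd1 v
      have h2 := hd2 v
      omega
    have hstruct : ∀ w, w ≠ u → w ≠ v → (dg G H' w = 0 ∨ dg G H' w = 2 ∨ dg G H' w = 3) ∧
        (dg G H' w ≠ 0 → dg G C' w = 2) := by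
      intro w h1 h2
      have e1 := hd1 w
      have e2 := hd2 w
      have e3 := hKother w h1 h2
      rcases hdeg w with h | h | h
      · have : dg G H' w = 0 := by omega
        exact ⟨Or.inl this, fun h' => absurd this h'⟩
      · have h4 : dg G C w = 2 := hon w h1 h2 (by omega)
        -- all edges at w are edges of C
        have h5 : (H.filter fun e => w ∈ G.ends e) = C.filter fun e => w ∈ G.ends e := by
          symm
          apply eq_of_subset_of_card_le (filter_subset_filter _ hCH)
          unfold dg at h h4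
          omega
        have h6 : dg G (C ∩ C') w = dg G C' w := by
          unfold dg
          congr 1
          ext e
          rw [mem_filter, mem_filter, mem_inter]
          constructor
          · rintro ⟨⟨_, a2⟩, a3⟩; exact ⟨a2, a3⟩
          · rintro ⟨a2, a3⟩
            have : e ∈ H.filter fun e => w ∈ G.ends e := mem_filter.2 ⟨hC'H a2, a3⟩
            rw [h5, mem_filter] at this
            exact ⟨⟨this.1, a2⟩, a3⟩
        have h7 := hC'.2.1 w
        refine ⟨by omega, fun h8 => by omega⟩
      · have h4 : dg G C w = 2 := hon w h1 h2 (by omega)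
        have h5 : dg G C' w = 2 := hC'3 w (by omega)
        have h6 : dg G (C ∩ C') w + dg G H w ≥ dg G C w + dg G C' w := by
          unfold dg
          have a1 : (C ∩ C').filter (fun e => w ∈ G.ends e) =
              (C.filter fun e => w ∈ G.ends e) ∩ (C'.filter fun e => w ∈ G.ends e) := by
            ext e; simp only [mem_filter, mem_inter]; tauto
          rw [a1]
          have a2 := card_union_add_card_inter (C.filter fun e => w ∈ G.ends e)
            (C'.filter fun e => w ∈ G.ends e)
          have a3 : ((C.filter fun e => w ∈ G.ends e) ∪ (C'.filter fun e => w ∈ G.ends e)).card ≤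
              (H.filter fun e => w ∈ G.ends e).card :=
            card_le_card (union_subset (filter_subset_filter _ hCH) (filter_subset_filter _ hC'H))
          omega
        exact ⟨by omega, fun _ => h5⟩
    have hesH' : es ∈ H' := by
      rw [hH', mem_sdiff, mem_sdiff]
      exact ⟨hesH, fun h => hesC h.1⟩
    by_cases hoff : dg G C' u = 0 ∧ dg G C' v = 0
    · refine ih H' C' hcardH' hC'H' hC' hesH' ?_ hH'u hH'v hoff.1 hoff.2
        (fun w h1 h2 => (hstruct w h1 h2).2) ?_
      · intro w
        by_cases h1 : w = u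
        · rw [h1]; exact Or.inr (Or.inr hH'u)
        · by_cases h2 : w = v
          · rw [h2]; exact Or.inr (Or.inr hH'v)
          · exact (hstruct w h1 h2).1
      · obtain ⟨e, heH, heu, hev⟩ := hleg
        refine ⟨e, ?_, heu, hev⟩
        rw [hH', mem_sdiff, mem_sdiff]
        exact ⟨heH, fun h => hnotC e (Or.inl heu) h.1⟩
    · apply dominating_general G H' C' hC'H' hC'
      · intro w hw
        have h1 := dg_mono (G := G) hC'H' w
        by_cases h2 : w = u
        · rw [h2]; exact Or.inr hH'u
        · by_cases h3 : w = v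
          · rw [h3]; exact Or.inr hH'v
          · have := (hstruct w h2 h3).1
            omega
      · intro w hw
        by_cases h2 : w = u
        · rw [h2]; exact Or.inr hH'u
        · by_cases h3 : w = v
          · rw [h3]; exact Or.inr hH'v
          · left
            by_contra h4
            have := (hstruct w h2 h3).2 h4
            omega
      · intro e he
        by_cases hend : ∃ w ∈ G.ends e, w ≠ u ∧ w ≠ v
        · obtain ⟨w, hw, h1, h2⟩ := hend
          refine ⟨w, hw, (hstruct w h1 h2).2 ?_⟩
          have := dg_pos_of_mem (G := G) he hw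
          omega
        · push Not at hend
          obtain ⟨a, b, hab, hab2⟩ := exists_ends G e
          have ha : a ∈ G.ends e := by rw [hab2]; simp
          have hb : b ∈ G.ends e := by rw [hab2]; simp
          have h1 : u ∈ G.ends e ∧ v ∈ G.ends e := by
            by_cases hau : a = u
            · have hbu : b ≠ u := fun h => hab (hau.trans h.symm)
              have hbv := hend b hb hbu
              exact ⟨hau ▸ ha, hbv ▸ hb⟩
            · have hav := hend a ha hau
              by_cases hbu : b = u
              · exact ⟨hbu ▸ hb, hav ▸ ha⟩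
              · have hbv := hend b hb hbu
                exact absurd (hav.trans hbv.symm) hab
          by_cases h2 : dg G C' u = 0
          · have h3 : dg G C' v ≠ 0 := fun h => hoff ⟨h2, h⟩
            exact ⟨v, h1.2, (hC'.2.1 v).resolve_left h3⟩
          · exact ⟨u, h1.1, (hC'.2.1 u).resolve_left h2⟩


end Pool.Agent.Helper347.Sab
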