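import Pool.Agent.Helper347.SabSmith

set_option autoImplicit false
set_option linter.unusedSectionVars false
set_option linter.unusedSimpArgs false
set_option linter.unnecessarySeqFocus false
set_option linter.unusedVariables false

open Finset

namespace Pool.Agent.Helper347.Sab

variable {V E : Type} [Fintype V] [DecidableEq V] [Fintype E] [DecidableEq E]

/-- Every nonempty even edge set contains a circuit. -/
theorem even_circuit (G : MGraph V E) (n : ℕ) : ∀ Y : Finset E, Y.card ≤ n → Y.Nonempty → Ev G Y →
    ∃ X, X ⊆ Y ∧ IsCircuit G X := by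
  classical
  induction n with
  | zero =>
    intro Y hY hne _
    exact absurd hne.card_pos (by omega)
  | succ n ih =>
    intro Y hcard hne hev
    by_cases h2 : ∀ v, dg G Y v = 0 ∨ dg G Y v = 2
    · obtain ⟨X, hX, hX2, _⟩ := component G Y h2 hne
      exact ⟨X, hX, hX2⟩
    · push Not at h2
      obtain ⟨w, hw0, hw2⟩ := h2
      have hw4 : 4 ≤ dg G Y w := by
        have := hev w
        rw [Nat.even_iff] at this
        omega
      obtain ⟨e0, he0⟩ := hne
      obtain ⟨v0, hv0⟩ : ∃ v, v ∈ G.ends e0 := by
        obtain ⟨a, b, _, h⟩ := exists_ends G e0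
        exact ⟨a, by rw [h]; simp⟩
      obtain ⟨W, hW⟩ : ∃ W : Finset V, ∀ v, v ∈ W ↔ dg G Y v ≠ 0 :=
        ⟨univ.filter fun v => dg G Y v ≠ 0, fun v => by simp⟩
      have hsum : ∑ v, dg G Y v = 2 * Y.card := by
        unfold dg
        simp only [card_filter]
        rw [sum_comm]
        have : ∀ e ∈ Y, ∑ v : V, (if v ∈ G.ends e then 1 else 0) = 2 := by
          intro e _
          rw [← card_filter, card_ends]
        rw [sum_congr rfl this, sum_const, smul_eq_mul, mul_comm]
      have hWlt : W.card + 1 ≤ Y.card := by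
        have h1 : ∑ v, dg G Y v = ∑ v ∈ W, dg G Y v := by
          symm
          apply sum_subset (subset_univ _)
          intro v _ hv
          rw [hW] at hv
          push Not at hv
          exact hv
        have hwW : w ∈ W := (hW w).2 hw0
        have h3 : 2 * (W.erase w).card ≤ ∑ v ∈ W.erase w, dg G Y v := by
          have : ∀ v ∈ W.erase w, 2 ≤ dg G Y v := by
            intro v hv
            have h4 := (hW v).1 (mem_of_mem_erase hv)
            have h5 := hev v
            rw [Nat.even_iff] at h5
            omega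
          have := card_nsmul_le_sum (W.erase w) (fun v => dg G Y v) 2 this
          rw [smul_eq_mul] at this
          omega
        have h6 := sum_erase_add W (fun v => dg G Y v) hwW
        have h7 := card_erase_add_one hwW
        omega
      -- two subsets with the same parities
      have hv0W : v0 ∈ W := (hW v0).2 (by have := dg_pos_of_mem he0 hv0; omega)
      obtain ⟨A, hA, B, hB, hAB, hpar⟩ : ∃ A ∈ (Y.erase e0).powerset, ∃ B ∈ (Y.erase e0).powerset,
          A ≠ B ∧ ((W.erase v0).filter fun v => ¬ Even (dg G A v)) =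
            ((W.erase v0).filter fun v => ¬ Even (dg G B v)) := by
        apply exists_ne_map_eq_of_card_lt_of_maps_to (t := (W.erase v0).powerset)
        · rw [card_powerset, card_powerset]
          apply Nat.pow_lt_pow_right (by norm_num)
          have h8 := card_erase_add_one hv0W
          have h9 := card_erase_add_one he0
          omega
        · intro A _
          simp only [coe_powerset, Set.mem_preimage, Set.mem_powerset_iff]
          exact_mod_cast filter_subset _ _
      rw [mem_powerset] at hA hB
      obtain ⟨Z, hZ⟩ : ∃ Z, Z = symmDiff A B := ⟨_, rfl⟩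
      have hZY : Z ⊆ Y.erase e0 := by
        rw [hZ]
        intro e he
        rw [mem_symmDiff] at he
        rcases he with he | he
        · exact hA he.1
        · exact hB he.1
      have hZY' : Z ⊆ Y := hZY.trans (erase_subset _ _)
      have hZne : Z.Nonempty := by
        rw [hZ, nonempty_iff_ne_empty]
        intro h
        exact hAB (symmDiff_eq_bot.1 h)
      have hZe : ∀ v, v ≠ v0 → Even (dg G Z v) := by
        intro v hv
        by_cases hvW : v ∈ W
        · have h10 := dg_symmDiff G A B v
          rw [← hZ] at h10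
          have h11 : (¬ Even (dg G A v)) ↔ (¬ Even (dg G B v)) := by
            have h12 := congrArg (fun S => v ∈ S) hpar
            simp only [mem_filter, mem_erase, eq_iff_iff] at h12
            constructor
            · intro h; exact (h12.1 ⟨⟨hv, hvW⟩, h⟩).2
            · intro h; exact (h12.2 ⟨⟨hv, hvW⟩, h⟩).2
          rw [Nat.even_iff, Nat.even_iff] at h11
          rw [Nat.even_iff]
          omega
        · rw [hW] at hvW
          push Not at hvW
          have := dg_mono (G := G) hZY' v
          rw [hvW] at this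
          rw [Nat.le_zero.1 this]
          exact ⟨0, rfl⟩
      have hZev : Ev G Z := by
        intro v
        by_cases hv : v = v0
        · have h1 := handshake G Z
          rw [← add_sum_erase univ _ (mem_univ v0)] at h1
          have h2 : Even (∑ x ∈ univ.erase v0, dg G Z x) := by
            apply even_sum
            intro x hx
            exact hZe x (ne_of_mem_erase hx)
          rw [hv]
          exact (Nat.even_add.1 h1).2 h2
        · exact hZe v hv
      obtain ⟨X, hX1, hX2⟩ := ih Z (by
        have h1 := card_le_card hZY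
        have h9 := card_erase_add_one he0
        omega) hZne hZev
      exact ⟨X, hX1.trans hZY', hX2⟩

/-- Every even edge set is the disjoint union of circuits. -/
theorem even_decompose (G : MGraph V E) (n : ℕ) : ∀ D : Finset E, D.card ≤ n → Ev G D →
    ∃ P : Finset (Finset E), (∀ X ∈ P, IsCircuit G X ∧ X ⊆ D) ∧
      ∀ e ∈ D, ∃! X, X ∈ P ∧ e ∈ X := by
  classical
  induction n with
  | zero =>
    intro D hD _
    have : D = ∅ := card_eq_zero.1 (Nat.le_zero.1 hD)
    subst this
    exact ⟨∅, by simp, by simp⟩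
  | succ n ih =>
    intro D hcard hD
    rcases D.eq_empty_or_nonempty with h | hne
    · subst h
      exact ⟨∅, by simp, by simp⟩
    · obtain ⟨X, hXD, hX⟩ := even_circuit G D.card D le_rfl hne hD
      have hXev : Ev G X := by
        intro v
        rcases hX.2.1 v with h | h <;> rw [h] <;> decide
      have hlt : (D \ X).card ≤ n := by
        have := card_sdiff_add_card_eq_card hXD
        have := hX.1.card_pos
        omega
      obtain ⟨P, hP1, hP2⟩ := ih (D \ X) hlt (by
        intro v
        have h1 := dg_sdiff (G := G) hXD v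
        have h2 := hD v
        have h3 := hXev v
        rw [Nat.even_iff] at *
        omega)
      have hXP : ∀ Y ∈ P, ∀ e ∈ Y, e ∉ X := by
        intro Y hY e he
        have := (hP1 Y hY).2 he
        rw [mem_sdiff] at this
        exact this.2
      refine ⟨insert X P, ?_, ?_⟩
      · intro Y hY
        rw [mem_insert] at hY
        rcases hY with rfl | hY
        · exact ⟨hX, hXD⟩
        · exact ⟨(hP1 Y hY).1, (hP1 Y hY).2.trans sdiff_subset⟩
      · intro e he
        by_cases heX : e ∈ X
        · refine ⟨X, ⟨mem_insert_self _ _, heX⟩, ?_⟩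
          rintro Y ⟨hY, heY⟩
          rw [mem_insert] at hY
          rcases hY with hY | hY
          · exact hY
          · exact absurd heX (hXP Y hY e heY)
        · obtain ⟨Y, ⟨hY, heY⟩, huniq⟩ := hP2 e (mem_sdiff.2 ⟨he, heX⟩)
          refine ⟨Y, ⟨mem_insert_of_mem hY, heY⟩, ?_⟩
          rintro Z ⟨hZ, heZ⟩
          rw [mem_insert] at hZ
          rcases hZ with rfl | hZ
          · exact absurd heZ heX
          · exact huniq Z ⟨hZ, heZ⟩

/-- Compatible decomposition into even colour classes, then into circuits. -/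
theorem tour_theorem (G : MGraph V E) (m : ℕ) (t : ZMod m → E) (ht : Function.Bijective t)
    (x : ZMod m → V) (hx : ∀ i, G.ends (t i) = s(x i, x (i + 1)))
    (hdeg : ∀ v, 4 ≤ dg G univ v) :
    ∃ P : Finset (Finset E), (∀ X ∈ P, IsCircuit G X) ∧ (∀ e, ∃! X, X ∈ P ∧ e ∈ X) ∧
      ∀ X ∈ P, ∀ i, ¬ (t i ∈ X ∧ t (i + 1) ∈ X) := by
  classical
  have h2 : ∀ z : ZMod 2, z + z = 0 := by decide
  have hfin : Finite (ZMod m) := Finite.of_injective t ht.1
  have hm : m ≠ 0 := by
    rintro rfl
    have h0 : Finite ℤ := hfin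
    exact not_finite ℤ
  have : NeZero m := ⟨hm⟩
  -- degrees through positions
  have hxne : ∀ i, x i ≠ x (i + 1) := by
    intro i h
    apply G.loopless (t i)
    rw [hx, h]
    exact Sym2.mk_isDiag_iff.2 rfl
  have hshift : ∀ f : ZMod m → ℕ, ∑ i, f (i + 1) = ∑ i, f i := fun f =>
    Equiv.sum_comp (Equiv.addRight (1 : ZMod m)) f
  have hdg : ∀ (D : Finset E) (v : V), dg G D v =
      ∑ i, (if x i = v then ((if t (i - 1) ∈ D then 1 else 0) + (if t i ∈ D then 1 else 0)) else 0) := by
    intro D v
    have h1 : dg G D v = ∑ i, (if t i ∈ D ∧ v ∈ G.ends (t i) then 1 else 0) := by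
      have h0 : dg G D v = ∑ e, (if e ∈ D ∧ v ∈ G.ends e then 1 else 0) := by
        unfold dg
        rw [← card_filter]
        congr 1
        ext e; simp
      rw [h0]
      exact (Equiv.sum_comp (Equiv.ofBijective t ht)
        (fun e => if e ∈ D ∧ v ∈ G.ends e then 1 else 0)).symm
    rw [h1]
    have h3 : ∀ i, (if t i ∈ D ∧ v ∈ G.ends (t i) then 1 else 0 : ℕ) =
        (if x i = v then (if t i ∈ D then 1 else 0) else 0) +
        (if x (i + 1) = v then (if t (i + 1 - 1) ∈ D then 1 else 0) else 0) := by
      intro i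
      have hmem : v ∈ G.ends (t i) ↔ v = x i ∨ v = x (i + 1) := by
        rw [hx]; exact Sym2.mem_iff
      simp only [hmem, add_sub_cancel_right]
      have h4 := hxne i
      by_cases ha : x i = v
      · have hb : x (i + 1) ≠ v := fun h => h4 (ha.trans h.symm)
        by_cases hc : t i ∈ D <;> simp [ha, hb, hc]
      · have ha' : ¬ v = x i := fun h => ha h.symm
        by_cases hb : x (i + 1) = v
        · by_cases hc : t i ∈ D <;> simp [ha, hb, hc, ha']
        · have hb' : ¬ v = x (i + 1) := fun h => hb h.symm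
          simp [ha, hb, ha', hb']
    rw [sum_congr rfl fun i _ => h3 i, sum_add_distrib,
      hshift (fun i => if x i = v then (if t (i - 1) ∈ D then 1 else 0) else 0), ← sum_add_distrib]
    refine sum_congr rfl fun i _ => ?_
    split_ifs <;> rfl
  -- number of positions at a vertex
  obtain ⟨k, hk⟩ : ∃ k : V → ℕ, ∀ v, k v = Fintype.card {i // x i = v} := ⟨_, fun _ => rfl⟩
  have hk2 : ∀ v, 2 ≤ k v := by
    intro v
    have h1 := hdeg v
    rw [hdg univ v] at h1
    simp only [mem_univ, if_true] at h1
    rw [← sum_filter, sum_const, smul_eq_mul] at h1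
    rw [hk, Fintype.card_subtype]
    omega
  obtain ⟨b, hb⟩ : ∃ b : V → ℕ, ∀ v, b v = k v % 2 := ⟨_, fun _ => rfl⟩
  obtain ⟨a, ha⟩ : ∃ a : V → ℕ, ∀ v, a v = (k v - 3 * b v) / 2 := ⟨_, fun _ => rfl⟩
  have hab : ∀ v, 2 * a v + 3 * b v = k v := by
    intro v
    have h1 := hk2 v
    have h3 := hb v
    have h4 := ha v
    omega
  have hequiv : ∀ v, Nonempty ((Fin (a v) × Fin 2) ⊕ (Fin (b v) × Fin 3) ≃ {i // x i = v}) := by
    intro v
    refine ⟨Fintype.equivOfCardEq ?_⟩
    rw [← hk, ← hab v]
    simp only [Fintype.card_sum, Fintype.card_prod, Fintype.card_fin]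
    ring
  have eqv : ∀ v, (Fin (a v) × Fin 2) ⊕ (Fin (b v) × Fin 3) ≃ {i // x i = v} :=
    fun v => (hequiv v).some
  obtain ⟨pos, hpos1, hpos2⟩ : ∃ pos : Qx (Σ v, Fin (a v)) (Σ v, Fin (b v)) → ZMod m,
      (∀ i k, pos (Sum.inl (i, k)) = (eqv i.1 (Sum.inl (i.2, k))).1) ∧
      (∀ i k, pos (Sum.inr (i, k)) = (eqv i.1 (Sum.inr (i.2, k))).1) :=
    ⟨Sum.elim (fun p => (eqv p.1.1 (Sum.inl (p.1.2, p.2))).1)
      (fun p => (eqv p.1.1 (Sum.inr (p.1.2, p.2))).1), fun _ _ => rfl, fun _ _ => rfl⟩
  have hx1 : ∀ i k, x (pos (Sum.inl (i, k))) = i.1 := fun i k => by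
    rw [hpos1]; exact (eqv i.1 (Sum.inl (i.2, k))).2
  have hx2 : ∀ i k, x (pos (Sum.inr (i, k))) = i.1 := fun i k => by
    rw [hpos2]; exact (eqv i.1 (Sum.inr (i.2, k))).2
  have hinj : Function.Injective pos := by
    rintro (⟨⟨v, i⟩, k1⟩ | ⟨⟨v, i⟩, k1⟩) (⟨⟨w, j⟩, k2⟩ | ⟨⟨w, j⟩, k2⟩) h
    · have h1 := congrArg x h
      rw [hx1, hx1] at h1
      simp only at h1
      subst h1
      rw [hpos1, hpos1] at h
      have := (eqv v).injective (Subtype.ext h)
      simp only [Sum.inl.injEq, Prod.mk.injEq] at this
      rw [this.1, this.2]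
    · have h1 := congrArg x h
      rw [hx1, hx2] at h1
      simp only at h1
      subst h1
      rw [hpos1, hpos2] at h
      have := (eqv v).injective (Subtype.ext h)
      simp at this
    · have h1 := congrArg x h
      rw [hx2, hx1] at h1
      simp only at h1
      subst h1
      rw [hpos2, hpos1] at h
      have := (eqv v).injective (Subtype.ext h)
      simp at this
    · have h1 := congrArg x h
      rw [hx2, hx2] at h1
      simp only at h1
      subst h1
      rw [hpos2, hpos2] at h
      have := (eqv v).injective (Subtype.ext h)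
      simp only [Sum.inr.injEq, Prod.mk.injEq] at this
      rw [this.1, this.2]
  have hsurj : Function.Surjective pos := by
    intro i
    obtain ⟨y, hy⟩ := (eqv (x i)).surjective ⟨i, rfl⟩
    rcases y with ⟨j, k⟩ | ⟨j, k⟩
    · exact ⟨Sum.inl (⟨x i, j⟩, k), by rw [hpos1]; exact congrArg Subtype.val hy⟩
    · exact ⟨Sum.inr (⟨x i, j⟩, k), by rw [hpos2]; exact congrArg Subtype.val hy⟩
  -- hypotheses of core
  have H1 : ∀ h : E → ZMod 2, ∑ p : ZMod m, (h (t (p - 1)) + h (t p)) = 0 := by
    intro h
    rw [sum_add_distrib]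
    have : ∑ p : ZMod m, h (t (p - 1)) = ∑ p : ZMod m, h (t p) :=
      Equiv.sum_comp (Equiv.subRight (1 : ZMod m)) (fun p => h (t p))
    rw [this, h2]
  have H2 : ∀ p q : ZMod m, ∃ b : E → ZMod 2, ∀ y,
      b (t (y - 1)) + b (t y) = (if y = p then 1 else 0) + (if y = q then 1 else 0) := by
    intro p q
    have key : ∀ n : ℕ, ∃ b : E → ZMod 2, ∀ y,
        b (t (y - 1)) + b (t y) = (if y = p then 1 else 0) + (if y = p + (n : ZMod m) then 1 else 0) := by
      intro n
      induction n with
      | zero => exact ⟨0, fun y => by simp [h2]⟩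
      | succ n ih =>
        obtain ⟨b, hb⟩ := ih
        refine ⟨fun e => b e + if e = t (p + n) then 1 else 0, fun y => ?_⟩
        have h3 := hb y
        have h4 : (t (y - 1) = t (p + n)) ↔ y = p + ((n + 1 : ℕ) : ZMod m) := by
          rw [ht.1.eq_iff]
          push_cast
          constructor
          · intro h; linear_combination h
          · intro h; linear_combination h
        have h5 : (t y = t (p + n)) ↔ y = p + n := ht.1.eq_iff
        simp only [h4, h5]
        generalize (if y = p + ((n + 1 : ℕ) : ZMod m) then 1 else 0 : ZMod 2) = c1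
        generalize (if y = p + (n : ZMod m) then 1 else 0 : ZMod 2) = c2 at *
        linear_combination h3 + h2 c2
    obtain ⟨b, hb⟩ := key (q - p).val
    refine ⟨b, fun y => ?_⟩
    rw [hb y, ZMod.natCast_zmod_val, add_sub_cancel]
  obtain ⟨F, hF1, hF2, col, hc1, hc2, hc3, hc4⟩ := core (fun p => t (p - 1)) t H1 H2 pos hinj
  -- colour classes are even
  have hev : ∀ c : F, Ev G (univ.filter fun e => col e = c) := by
    intro c v
    rw [hdg]
    simp only [mem_filter, mem_univ, true_and]
    rw [← sum_filter]
    rw [show (∑ i ∈ univ.filter (fun i => x i = v),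
        ((if col (t (i - 1)) = c then 1 else 0) + (if col (t i) = c then 1 else 0))) =
        ∑ i : {i // x i = v}, ((if col (t (i.1 - 1)) = c then 1 else 0) +
          (if col (t i.1) = c then 1 else 0)) by
      rw [← sum_subtype_eq_sum_filter]
      simp]
    rw [← Equiv.sum_comp (eqv v), Fintype.sum_sum_type, Fintype.sum_prod_type, Fintype.sum_prod_type]
    apply Even.add
    · apply even_sum
      intro i _
      have := hc3 ⟨v, i⟩ c
      simp only [hpos1] at this
      exact this
    · apply even_sum
      intro i _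
      have := hc4 ⟨v, i⟩ c
      simp only [hpos2] at this
      exact this
  have hdec : ∀ c : F, ∃ P : Finset (Finset E), (∀ X ∈ P, IsCircuit G X ∧ X ⊆ univ.filter fun e => col e = c) ∧
      ∀ e ∈ univ.filter (fun e => col e = c), ∃! X, X ∈ P ∧ e ∈ X :=
    fun c => even_decompose G _ _ le_rfl (hev c)
  choose P hP1 hP2 using hdec
  refine ⟨univ.biUnion P, ?_, ?_, ?_⟩
  · intro X hX
    rw [mem_biUnion] at hX
    obtain ⟨c, _, hX⟩ := hX
    exact (hP1 c X hX).1
  · intro e
    obtain ⟨X, ⟨hX1, hX2⟩, hX3⟩ := hP2 (col e) e (by simp)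
    refine ⟨X, ⟨mem_biUnion.2 ⟨col e, mem_univ _, hX1⟩, hX2⟩, ?_⟩
    rintro Y ⟨hY, heY⟩
    rw [mem_biUnion] at hY
    obtain ⟨c, _, hY⟩ := hY
    have h3 := (hP1 c Y hY).2 heY
    rw [mem_filter] at h3
    rw [← h3.2] at hY
    exact hX3 Y ⟨hY, heY⟩
  · rintro X hX i ⟨h3, h4⟩
    rw [mem_biUnion] at hX
    obtain ⟨c, _, hX⟩ := hX
    have h5 := (hP1 c X hX).2 h3
    have h6 := (hP1 c X hX).2 h4
    rw [mem_filter] at h5 h6
    obtain ⟨q, hq⟩ := hsurj (i + 1)
    have h7 := hc1 q
    rw [hq, add_sub_cancel_right] at h7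
    exact h7 (h5.2.trans h6.2.symm)

end Pool.Agent.Helper347.Sab
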